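import Pool.Agent.H692R2.USS.T1

set_option autoImplicit false
set_option linter.unusedVariables false

/-! # Sieve bound for an interval and arbitrary residue classes (helper642) -/

namespace Pool.Agent.U642.DU

open Finset ArithmeticFunction BoundingSieve Pool.Agent.Helper601 Pool.Agent.H692R2.USS

open scoped Classical

theorem nat_sieve (a n R : ℕ) (hR : 1 ≤ R) :
    (((Finset.range n).filter (fun k => ∀ p : ℕ, p.Prime → p ≤ R → ¬ p ∣ a + k)).card : ℝ) ≤
      2 * n / Real.log ((R : ℝ) + 1) + (R : ℝ) ^ 4 := by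
  have hR' : (1 : ℝ) ≤ R := by exact_mod_cast hR
  have hinj : ∀ x ∈ Finset.range n, ∀ y ∈ Finset.range n,
      (fun k => a + k * 1) x = (fun k => a + k * 1) y → x = y := by
    intro x _ y _ hxy
    simp only at hxy
    omega
  have e : (apSieve a 1 n R).siftedSum =
      (((Finset.range n).filter (fun k => Nat.Coprime (PP 1 R) (a + k * 1))).card : ℝ) := by
    unfold BoundingSieve.siftedSum
    have h0 : (apSieve a 1 n R).support = (Finset.range n).image (fun k => a + k * 1) := rfl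
    rw [h0, Finset.sum_image hinj, Finset.card_filter]
    push_cast
    apply Finset.sum_congr rfl
    intro k _
    have h : (apSieve a 1 n R).prodPrimes = PP 1 R := rfl
    have h' : (apSieve a 1 n R).weights (a + k * 1) = 1 := rfl
    by_cases hc : Nat.Coprime (PP 1 R) (a + k * 1)
    · rw [if_pos hc, if_pos (by rw [h]; exact hc), h']
    · rw [if_neg hc, if_neg (by rw [h]; exact hc)]
  have h1 : (((Finset.range n).filter (fun k => ∀ p : ℕ, p.Prime → p ≤ R → ¬ p ∣ a + k)).card : ℝ) ≤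
      (apSieve a 1 n R).siftedSum := by
    rw [e]
    apply Nat.cast_le.mpr
    apply card_le_card
    intro k hk
    rw [mem_filter] at hk ⊢
    refine ⟨hk.1, ?_⟩
    rw [Nat.coprime_iff_gcd_eq_one]
    by_contra hne
    obtain ⟨p, hp, hpd⟩ := Nat.exists_prime_and_dvd hne
    have h2 := (prime_dvd_PP hp).mp (hpd.trans (Nat.gcd_dvd_left _ _))
    have h3 := hpd.trans (Nat.gcd_dvd_right _ _)
    rw [mul_one] at h3
    exact hk.2 p hp h2.1 h3
  have h2 := siftedSum_le_selberg (apSieve a 1 n R) (R : ℝ) hR' 1 zero_le_one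
    (fun d hd => apSieve_rem one_pos hd)
  have h3 := t1_selS_ge_log (a := a) (N := n) (R := R) (q := 1) le_rfl
  have hlog : 0 < Real.log ((R : ℝ) + 1) := Real.log_pos (by linarith)
  have h4 : (apSieve a 1 n R).totalMass / selS (apSieve a 1 n R) R ≤
      2 * n / Real.log ((R : ℝ) + 1) := by
    change (n : ℝ) / _ ≤ _
    have h3' : Real.log ((R : ℝ) + 1) / 2 ≤ selS (apSieve a 1 n R) R := by
      simpa using h3
    have : (n : ℝ) / selS (apSieve a 1 n R) R ≤ (n : ℝ) / (Real.log ((R : ℝ) + 1) / 2) := by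
      apply div_le_div_of_nonneg_left (by positivity) (by positivity) h3'
    refine this.trans (le_of_eq ?_)
    field_simp
  have h5 : (∑ d ∈ (Nat.divisors (apSieve a 1 n R).prodPrimes).filter (fun d : ℕ => (d : ℝ) ≤ R),
      ((apSieve a 1 n R).nu d)⁻¹) ≤ (R : ℝ) ^ 2 := by
    have h6 : (Nat.divisors (apSieve a 1 n R).prodPrimes).filter (fun d : ℕ => (d : ℝ) ≤ R) ⊆
        Finset.Icc 1 R := by
      intro d hd
      rw [Finset.mem_filter, Nat.mem_divisors] at hd
      rw [Finset.mem_Icc]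
      refine ⟨Nat.pos_of_ne_zero (ne_zero_of_dvd_ne_zero hd.1.2 hd.1.1), by exact_mod_cast hd.2⟩
    calc (∑ d ∈ (Nat.divisors (apSieve a 1 n R).prodPrimes).filter (fun d : ℕ => (d : ℝ) ≤ R),
          ((apSieve a 1 n R).nu d)⁻¹)
        = ∑ d ∈ (Nat.divisors (apSieve a 1 n R).prodPrimes).filter (fun d : ℕ => (d : ℝ) ≤ R),
          (d : ℝ) := by
          apply Finset.sum_congr rfl
          intro d _
          change ((d : ℝ)⁻¹)⁻¹ = d
          rw [inv_inv]
      _ ≤ ∑ d ∈ Finset.Icc 1 R, (d : ℝ) :=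
          Finset.sum_le_sum_of_subset_of_nonneg h6 (fun _ _ _ => by positivity)
      _ ≤ ∑ d ∈ Finset.Icc 1 R, (R : ℝ) := by
          apply Finset.sum_le_sum
          intro d hd
          exact_mod_cast (Finset.mem_Icc.mp hd).2
      _ = (R : ℝ) ^ 2 := by simp; ring
  have h7 : 0 ≤ (∑ d ∈ (Nat.divisors (apSieve a 1 n R).prodPrimes).filter (fun d : ℕ => (d : ℝ) ≤ R),
      ((apSieve a 1 n R).nu d)⁻¹) := by
    apply Finset.sum_nonneg
    intro d _
    change 0 ≤ ((d : ℝ)⁻¹)⁻¹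
    positivity
  have h8 : (∑ d ∈ (Nat.divisors (apSieve a 1 n R).prodPrimes).filter (fun d : ℕ => (d : ℝ) ≤ R),
      ((apSieve a 1 n R).nu d)⁻¹) ^ 2 ≤ (R : ℝ) ^ 4 := by
    calc _ ≤ ((R : ℝ) ^ 2) ^ 2 := by gcongr
      _ = (R : ℝ) ^ 4 := by ring
  linarith

open Filter in
theorem int_sieve : ∃ y₀ : ℝ, ∀ y : ℝ, y₀ ≤ y → ∀ L : ℕ, y ≤ L → ∀ s : ℤ,
    (((Icc (-(L : ℤ)) L).filter (fun h => ∀ p : ℕ, p.Prime → (p : ℝ) ≤ y →
      ¬ (p : ℤ) ∣ s + h)).card : ℝ) ≤ 50 * L / Real.log y := by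
  obtain ⟨y₀, hev⟩ : ∃ y₀ : ℝ, ∀ y : ℝ, y₀ ≤ y → 1 < y ∧ Real.log y ≤ y ^ (1 / 2 : ℝ) := by
    have e := (isLittleO_log_rpow_atTop (r := 1 / 2) (by norm_num)).bound one_pos
    have key : ∀ᶠ y : ℝ in atTop, 1 < y ∧ Real.log y ≤ y ^ (1 / 2 : ℝ) := by
      filter_upwards [e, eventually_gt_atTop (1 : ℝ)] with y hy hy1
      rw [Real.norm_of_nonneg (Real.log_nonneg hy1.le), one_mul,
        Real.norm_of_nonneg (Real.rpow_nonneg (by linarith) _)] at hy
      exact ⟨hy1, hy⟩
    exact eventually_atTop.1 key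
  refine ⟨y₀, ?_⟩
  intro y hy L hL s
  obtain ⟨hy1, hylog⟩ := hev y hy
  have hy0 : 0 < y := by linarith
  have hly : 0 < Real.log y := Real.log_pos hy1
  set x : ℝ := y ^ (1 / 8 : ℝ) with hx
  have hx1 : 1 ≤ x := Real.one_le_rpow hy1.le (by norm_num)
  set R : ℕ := ⌊x⌋₊ with hR
  have hR1 : 1 ≤ R := Nat.floor_pos.mpr hx1
  have hRx : (R : ℝ) ≤ x := Nat.floor_le (by linarith)
  have hxy : x ≤ y := by
    calc x ≤ y ^ (1 : ℝ) := Real.rpow_le_rpow_of_exponent_le hy1.le (by norm_num)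
      _ = y := Real.rpow_one y
  have hlogR : Real.log y / 8 ≤ Real.log ((R : ℝ) + 1) := by
    have h1 : Real.log x = Real.log y / 8 := by
      rw [hx, Real.log_rpow hy0]
      ring
    rw [← h1]
    exact Real.log_le_log (by linarith) (Nat.lt_floor_add_one x).le
  have hP0 : 0 < PP 1 R := Nat.pos_of_ne_zero (PP_squarefree 1 R).ne_zero
  have hP0Z : (0 : ℤ) < (PP 1 R : ℤ) := by exact_mod_cast hP0
  set a : ℕ := ((s - L) % (PP 1 R : ℤ)).toNat with ha
  have haZ : (a : ℤ) = (s - L) % (PP 1 R : ℤ) := Int.toNat_of_nonneg (Int.emod_nonneg _ hP0Z.ne')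
  have had : (PP 1 R : ℤ) ∣ (s - L) - a := by
    rw [haZ]
    exact Int.dvd_self_sub_emod
  have h1 : ((Icc (-(L : ℤ)) L).filter (fun h => ∀ p : ℕ, p.Prime → (p : ℝ) ≤ y →
      ¬ (p : ℤ) ∣ s + h)).card ≤
      ((Finset.range (2 * L + 1)).filter (fun k => ∀ p : ℕ, p.Prime → p ≤ R → ¬ p ∣ a + k)).card := by
    apply card_le_card_of_injOn (fun h : ℤ => (h + L).toNat)
    · intro h hh
      rw [mem_coe, mem_filter, mem_Icc] at hh
      rw [mem_coe, mem_filter, mem_range]
      have hhL : (((h + L).toNat : ℕ) : ℤ) = h + L := Int.toNat_of_nonneg (by linarith [hh.1.1])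
      refine ⟨?_, ?_⟩
      · have : (((h + L).toNat : ℕ) : ℤ) < 2 * L + 1 := by
          rw [hhL]
          linarith [hh.1.2]
        simp only
        exact_mod_cast this
      · intro p hp hpR hd
        have hpy : (p : ℝ) ≤ y := by
          have : (p : ℝ) ≤ R := by exact_mod_cast hpR
          linarith
        apply hh.2 p hp hpy
        have h2 : (p : ℤ) ∣ (PP 1 R : ℤ) := by
          have : p ∣ PP 1 R := (prime_dvd_PP hp).mpr ⟨hpR, fun h => hp.one_lt.ne' (Nat.dvd_one.mp h)⟩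
          exact_mod_cast this
        have h3 : (p : ℤ) ∣ ((a + (h + L).toNat : ℕ) : ℤ) := by exact_mod_cast hd
        have h4 := dvd_add (h2.trans had) h3
        have h5 : (s - L) - (a : ℤ) + ((a + (h + L).toNat : ℕ) : ℤ) = s + h := by
          rw [Nat.cast_add, hhL]
          ring
        rwa [h5] at h4
    · intro h hh h' hh' heq
      rw [mem_coe, mem_filter, mem_Icc] at hh hh'
      simp only at heq
      omega
  have h2 := nat_sieve a (2 * L + 1) R hR1
  refine ((Nat.cast_le.mpr h1).trans h2).trans ?_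
  push_cast
  have hL1 : (1 : ℝ) ≤ L := by linarith
  have h3 : 2 * (2 * (L : ℝ) + 1) / Real.log ((R : ℝ) + 1) ≤ 48 * L / Real.log y := by
    calc 2 * (2 * (L : ℝ) + 1) / Real.log ((R : ℝ) + 1) ≤ 2 * (3 * L) / (Real.log y / 8) :=
          div_le_div₀ (by positivity) (by linarith) (by positivity) hlogR
      _ = 48 * L / Real.log y := by
          field_simp
          ring
  have h4 : (R : ℝ) ^ 4 ≤ L / Real.log y := by
    rw [le_div_iff₀ hly]
    have h5 : (R : ℝ) ^ 4 ≤ y ^ (1 / 2 : ℝ) := by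
      calc (R : ℝ) ^ 4 ≤ x ^ 4 := pow_le_pow_left₀ (Nat.cast_nonneg _) hRx 4
        _ = y ^ (1 / 2 : ℝ) := by
            rw [hx, ← Real.rpow_natCast, ← Real.rpow_mul hy0.le]
            norm_num
    calc (R : ℝ) ^ 4 * Real.log y ≤ y ^ (1 / 2 : ℝ) * y ^ (1 / 2 : ℝ) :=
          mul_le_mul h5 hylog hly.le (Real.rpow_nonneg hy0.le _)
      _ = y := by rw [← Real.rpow_add hy0]; norm_num
      _ ≤ L := hL
  have h6 : 50 * (L : ℝ) / Real.log y = 48 * L / Real.log y + L / Real.log y + L / Real.log y := by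
    ring
  have h7 : 0 ≤ (L : ℝ) / Real.log y := by positivity
  linarith

end Pool.Agent.U642.DU
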