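import Pool.Agent.U642.DU.SoftG
import Pool.Agent.U642.DU.Sel
import Pool.Agent.U642.DT.Fin

set_option autoImplicit false
set_option linter.unusedVariables false

/-! # Windows without primes at several affine functions of a linear form of two dense sets (helper642) -/

namespace Pool.Agent.U642.DU

open Finset Filter Pool.Agent.H256R2.SC Pool.Agent.U642.DS Pool.Agent.U642.DT

open scoped Classical

/-- one step of the separation from zero -/
theorem splitP (A B : Finset ℕ) (α β v : ℤ) (hα : 0 < α) (hβ : β ≠ 0) (g : ℕ) :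
    ∃ A' ⊆ A, ∃ B' ⊆ B, A.card ≤ 2 * (A'.card + g) ∧ B.card ≤ 2 * B'.card ∧
    ∀ a ∈ A', ∀ b ∈ B', (g : ℤ) ≤ |α * a + β * b + v| := by
  obtain ⟨m, hm1, hm2⟩ := med A
  obtain ⟨n, hn1, hn2⟩ := med B
  have hBp : ∃ Bp ⊆ B, B.card ≤ 2 * Bp.card ∧ ∀ b ∈ Bp, β * n ≤ β * b := by
    rcases lt_or_gt_of_ne hβ with h | h
    · refine ⟨B.filter (fun b => b ≤ n), filter_subset _ _, hn1, ?_⟩
      intro b hb
      have h1 : (b : ℤ) ≤ n := by exact_mod_cast (mem_filter.mp hb).2
      exact mul_le_mul_of_nonpos_left h1 h.le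
    · refine ⟨B.filter (fun b => n ≤ b), filter_subset _ _, hn2, ?_⟩
      intro b hb
      have h1 : (n : ℤ) ≤ b := by exact_mod_cast (mem_filter.mp hb).2
      exact mul_le_mul_of_nonneg_left h1 h.le
  have hBm : ∃ Bp ⊆ B, B.card ≤ 2 * Bp.card ∧ ∀ b ∈ Bp, β * b ≤ β * n := by
    rcases lt_or_gt_of_ne hβ with h | h
    · refine ⟨B.filter (fun b => n ≤ b), filter_subset _ _, hn2, ?_⟩
      intro b hb
      have h1 : (n : ℤ) ≤ b := by exact_mod_cast (mem_filter.mp hb).2
      exact mul_le_mul_of_nonpos_left h1 h.le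
    · refine ⟨B.filter (fun b => b ≤ n), filter_subset _ _, hn1, ?_⟩
      intro b hb
      have h1 : (b : ℤ) ≤ n := by exact_mod_cast (mem_filter.mp hb).2
      exact mul_le_mul_of_nonneg_left h1 h.le
  rcases le_or_gt 0 (α * m + β * n + v) with h | h
  · obtain ⟨Bp, hBp1, hBp2, hBp3⟩ := hBp
    refine ⟨A.filter (fun a => m + g ≤ a), filter_subset _ _, Bp, hBp1, ?_, hBp2, ?_⟩
    · have h1 : A.filter (fun a => m ≤ a) ⊆ A.filter (fun a => m + g ≤ a) ∪ Ico m (m + g) := by
        intro a ha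
        rw [mem_filter] at ha
        rw [mem_union, mem_filter, mem_Ico]
        by_cases hc : m + g ≤ a
        · exact Or.inl ⟨ha.1, hc⟩
        · exact Or.inr ⟨ha.2, by omega⟩
      have h2 := (card_le_card h1).trans (card_union_le _ _)
      rw [Nat.card_Ico] at h2
      omega
    · intro a ha b hb
      have h1 : ((m + g : ℕ) : ℤ) ≤ a := by exact_mod_cast (mem_filter.mp ha).2
      push_cast at h1
      have h2 := hBp3 b hb
      refine le_trans ?_ (le_abs_self _)
      have h3 : α * m + α * g ≤ α * a := by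
        rw [← mul_add]
        exact mul_le_mul_of_nonneg_left h1 hα.le
      have h4 : (g : ℤ) ≤ α * g := le_mul_of_one_le_left (by positivity) hα
      linarith
  · obtain ⟨Bp, hBp1, hBp2, hBp3⟩ := hBm
    refine ⟨A.filter (fun a => a + g ≤ m), filter_subset _ _, Bp, hBp1, ?_, hBp2, ?_⟩
    · have h1 : A.filter (fun a => a ≤ m) ⊆ A.filter (fun a => a + g ≤ m) ∪ Icc (m + 1 - g) m := by
        intro a ha
        rw [mem_filter] at ha
        rw [mem_union, mem_filter, mem_Icc]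
        by_cases hc : a + g ≤ m
        · exact Or.inl ⟨ha.1, hc⟩
        · exact Or.inr ⟨by omega, ha.2⟩
      have h2 := (card_le_card h1).trans (card_union_le _ _)
      rw [Nat.card_Icc] at h2
      omega
    · intro a ha b hb
      have h1 : ((a + g : ℕ) : ℤ) ≤ m := by exact_mod_cast (mem_filter.mp ha).2
      push_cast at h1
      have h2 := hBp3 b hb
      refine le_trans ?_ (neg_le_abs _)
      have h3 : α * a + α * g ≤ α * m := by
        rw [← mul_add]
        exact mul_le_mul_of_nonneg_left h1 hα.le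
      have h4 : (g : ℤ) ≤ α * g := le_mul_of_one_le_left (by positivity) hα
      linarith

theorem splitG (A B : Finset ℕ) (α β v : ℤ) (hα : α ≠ 0) (hβ : β ≠ 0) (g : ℕ) :
    ∃ A' ⊆ A, ∃ B' ⊆ B, A.card ≤ 2 * (A'.card + g) ∧ B.card ≤ 2 * B'.card ∧
    ∀ a ∈ A', ∀ b ∈ B', (g : ℤ) ≤ |α * a + β * b + v| := by
  rcases lt_or_gt_of_ne hα with h | h
  · obtain ⟨A', hA', B', hB', h1, h2, h3⟩ := splitP A B (-α) (-β) (-v) (by omega) (by omega) g
    refine ⟨A', hA', B', hB', h1, h2, ?_⟩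
    intro a ha b hb
    have h4 := h3 a ha b hb
    have h5 : -α * (a : ℤ) + -β * b + -v = -(α * a + β * b + v) := by ring
    rwa [h5, abs_neg] at h4
  · exact splitP A B α β v h hβ g

/-- separation from zero of the values of several forms -/
theorem splitS {ι : Type} (s : Finset ι) (α β v : ι → ℤ) (hα : ∀ i, α i ≠ 0) (hβ : ∀ i, β i ≠ 0)
    (g : ℕ) (A B : Finset ℕ) :
    ∃ A' ⊆ A, ∃ B' ⊆ B, A.card ≤ 2 ^ s.card * (A'.card + 2 * g) ∧
    B.card ≤ 2 ^ s.card * B'.card ∧
    ∀ i ∈ s, ∀ a ∈ A', ∀ b ∈ B', (g : ℤ) ≤ |α i * a + β i * b + v i| := by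
  induction s using Finset.induction_on with
  | empty =>
    refine ⟨A, Subset.refl _, B, Subset.refl _, by simp, by simp, ?_⟩
    intro i hi
    simp at hi
  | insert i s his ih =>
    obtain ⟨A₁, hA₁, B₁, hB₁, h1, h2, h3⟩ := ih
    obtain ⟨A', hA', B', hB', h4, h5, h6⟩ := splitG A₁ B₁ (α i) (β i) (v i) (hα i) (hβ i) g
    refine ⟨A', hA'.trans hA₁, B', hB'.trans hB₁, ?_, ?_, ?_⟩
    · rw [card_insert_of_notMem his, pow_succ]
      calc A.card ≤ 2 ^ s.card * (A₁.card + 2 * g) := h1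
        _ ≤ 2 ^ s.card * (2 * (A'.card + g) + 2 * g) := Nat.mul_le_mul_left _ (by omega)
        _ = 2 ^ s.card * 2 * (A'.card + 2 * g) := by ring
    · rw [card_insert_of_notMem his, pow_succ]
      calc B.card ≤ 2 ^ s.card * B₁.card := h2
        _ ≤ 2 ^ s.card * (2 * B'.card) := Nat.mul_le_mul_left _ h5
        _ = 2 ^ s.card * 2 * B'.card := by ring
    · intro j hj a ha b hb
      rw [mem_insert] at hj
      rcases hj with rfl | hj
      · exact h6 a ha b hb
      · exact h3 j hj a (hA' ha) b (hB' hb)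

/-- the affine functions of the windows -/
noncomputable def win {k : ℕ} (u w : Fin k → ℤ) (L : ℕ) : Finset (ℤ × ℤ) :=
  univ.biUnion (fun i : Fin k => (Icc (-(L : ℤ)) L).image (fun h => (u i, w i + h)))

theorem win_count {k : ℕ} (u w : Fin k → ℤ) (L : ℕ) (y C : ℝ) (m : ℤ)
    (hC : ∀ s : ℤ, (((Icc (-(L : ℤ)) L).filter (fun h => ∀ p : ℕ, p.Prime → (p : ℝ) ≤ y →
      ¬ (p : ℤ) ∣ s + h)).card : ℝ) ≤ C) : ((UG y (win u w L) m).card : ℝ) ≤ k * C := by
  have h1 : UG y (win u w L) m ⊆ univ.biUnion (fun i : Fin k =>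
      ((Icc (-(L : ℤ)) L).filter (fun h => ∀ p : ℕ, p.Prime → (p : ℝ) ≤ y →
        ¬ (p : ℤ) ∣ (u i * m + w i) + h)).image (fun h => (u i, w i + h))) := by
    intro x hx
    unfold UG win at hx
    rw [mem_filter, mem_biUnion] at hx
    obtain ⟨⟨i, hi, hxi⟩, h2⟩ := hx
    obtain ⟨h, hh, rfl⟩ := mem_image.mp hxi
    rw [mem_biUnion]
    refine ⟨i, hi, mem_image.mpr ⟨h, mem_filter.mpr ⟨hh, ?_⟩, rfl⟩⟩
    intro p hp hpy hd
    apply h2 p hp hpy
    simp only
    rwa [← add_assoc]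
  refine (Nat.cast_le.mpr ((card_le_card h1).trans card_biUnion_le)).trans ?_
  push_cast
  have h3 : (k : ℝ) * C = ∑ i : Fin k, C := by
    rw [sum_const, card_univ, Fintype.card_fin, nsmul_eq_mul]
  rw [h3]
  apply sum_le_sum
  intro i _
  refine (Nat.cast_le.mpr card_image_le).trans (hC _)

theorem ev_one (K : ℕ) (y₀ : ℝ) : ∃ X₀ : ℝ, ∀ X : ℝ, X₀ ≤ X →
    1 < X ∧ 100 ≤ Real.log X ∧ 4 ≤ Real.log (Real.log X) ∧
    Real.log (Real.log X) / 2 ≤ Real.log (Real.log X / 10) ∧
    y₀ ≤ Real.log X / 10 ∧ 1 < Real.log X / 10 ∧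
    2 * Real.log (Real.log X) ≤ Real.log X ∧
    Real.exp ((Real.log X) ^ K) + (Real.log X) ^ 2 ≤ Real.exp ((Real.log X) ^ (K + 2)) ∧
    Real.log X * (X ^ (1 / 200 : ℝ) + 1) ≤ X / (Real.log X) ^ K / 4 := by
  have t2 : Tendsto (fun X : ℝ => Real.log (Real.log X)) atTop atTop :=
    Real.tendsto_log_atTop.comp Real.tendsto_log_atTop
  have h1 : ∀ᶠ X : ℝ in atTop, (Real.log X) ^ (K + 1) ≤ X ^ (1 / 2 : ℝ) := by
    have e := (isLittleO_log_rpow_rpow_atTop (s := 1 / 2) ((K + 1 : ℕ) : ℝ) (by norm_num)).bound one_pos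
    filter_upwards [e, eventually_gt_atTop (1 : ℝ)] with X hX hX1
    rw [Real.norm_of_nonneg (Real.rpow_nonneg (Real.log_nonneg hX1.le) _), one_mul,
      Real.norm_of_nonneg (Real.rpow_nonneg (by linarith) _), Real.rpow_natCast] at hX
    exact hX
  have h2 : ∀ᶠ X : ℝ in atTop, 8 ≤ X ^ (1 / 4 : ℝ) :=
    (tendsto_rpow_atTop (by norm_num)).eventually_ge_atTop _
  have key : ∀ᶠ X : ℝ in atTop, 1 < X ∧ 100 ≤ Real.log X ∧ 4 ≤ Real.log (Real.log X) ∧
    Real.log (Real.log X) / 2 ≤ Real.log (Real.log X / 10) ∧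
    y₀ ≤ Real.log X / 10 ∧ 1 < Real.log X / 10 ∧
    2 * Real.log (Real.log X) ≤ Real.log X ∧
    Real.exp ((Real.log X) ^ K) + (Real.log X) ^ 2 ≤ Real.exp ((Real.log X) ^ (K + 2)) ∧
    Real.log X * (X ^ (1 / 200 : ℝ) + 1) ≤ X / (Real.log X) ^ K / 4 := by
    filter_upwards [eventually_gt_atTop (1 : ℝ), Real.tendsto_log_atTop.eventually_ge_atTop 100,
      t2.eventually_ge_atTop 6, Real.tendsto_log_atTop.eventually_ge_atTop (10 * y₀), h1, h2] with
      X e0 e1 e2 e3 e5 e6
    set l1 := Real.log X with hl1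
    set l2 := Real.log l1 with hl2
    have hX0 : 0 < X := by linarith
    have hl0 : 0 < l1 := by linarith
    refine ⟨e0, e1, by linarith, ?_, by linarith, by linarith, ?_, ?_, ?_⟩
    · have hlog10 : Real.log 10 ≤ 3 := by
        have : (10 : ℝ) ≤ Real.exp 3 := by
          have e := Real.exp_one_gt_d9
          have : Real.exp 3 = Real.exp 1 ^ 3 := by rw [← Real.exp_nat_mul]; norm_num
          rw [this]
          have h27 : (2.7 : ℝ) ^ 3 ≤ Real.exp 1 ^ 3 := pow_le_pow_left₀ (by norm_num) (by linarith) 3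
          norm_num at h27
          linarith
        rw [← Real.log_exp 3]
        exact Real.log_le_log (by norm_num) this
      rw [Real.log_div hl0.ne' (by norm_num)]
      linarith
    · have h4 : l2 ≤ 2 * Real.sqrt l1 := by
        have h5 := Real.log_le_sub_one_of_pos (Real.sqrt_pos.mpr hl0)
        rw [Real.log_sqrt hl0.le] at h5
        linarith
      have h6 : (10 : ℝ) ≤ Real.sqrt l1 := by
        rw [show (10 : ℝ) = Real.sqrt 100 by
          rw [show (100 : ℝ) = 10 ^ 2 by norm_num]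
          exact (Real.sqrt_sq (by norm_num)).symm]
        exact Real.sqrt_le_sqrt e1
      have h7 := Real.mul_self_sqrt hl0.le
      nlinarith
    · have h3 : l1 ^ (K + 2) = l1 ^ K * l1 ^ 2 := pow_add _ _ _
      have h4 : 1 ≤ l1 ^ K := one_le_pow₀ (by linarith)
      have h5 : l1 ^ K + l1 ≤ l1 ^ (K + 2) := by
        rw [h3]
        have h9 : 1 + l1 ≤ l1 ^ 2 := by nlinarith
        nlinarith
      have h6 : Real.exp (l1 ^ K) * Real.exp l1 ≤ Real.exp (l1 ^ (K + 2)) := by
        rw [← Real.exp_add]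
        exact Real.exp_le_exp.mpr h5
      have h7 : 1 ≤ Real.exp (l1 ^ K) := Real.one_le_exp (by positivity)
      have h8 : 1 + l1 ^ 2 ≤ Real.exp l1 := by
        have h9 := Real.quadratic_le_exp_of_nonneg (show 0 ≤ l1 / 2 by positivity)
        have h10 : Real.exp l1 = Real.exp (l1 / 2) * Real.exp (l1 / 2) := by
          rw [← Real.exp_add]
          congr 1
          ring
        rw [h10]
        have h11 : 2 * l1 ≤ Real.exp (l1 / 2) := by nlinarith
        nlinarith
      nlinarith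
    · set z : ℝ := X ^ (1 / 4 : ℝ) with hz
      have hz1 : 1 ≤ z := by linarith
      have f1 : X ^ (1 / 2 : ℝ) = z ^ 2 := by
        rw [hz, ← Real.rpow_natCast, ← Real.rpow_mul hX0.le]
        norm_num
      have f2 : X = z ^ 4 := by
        rw [hz, ← Real.rpow_natCast, ← Real.rpow_mul hX0.le]
        norm_num
      have f3 : X ^ (1 / 200 : ℝ) ≤ z := Real.rpow_le_rpow_of_exponent_le e0.le (by norm_num)
      have f4 : 0 < l1 ^ K := by positivity
      rw [f1] at e5
      have f5 : l1 * l1 ^ K ≤ z ^ 2 := by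
        rw [← pow_succ']
        exact e5
      have f6 : l1 * (X ^ (1 / 200 : ℝ) + 1) * l1 ^ K ≤ z ^ 4 / 4 := by
        calc l1 * (X ^ (1 / 200 : ℝ) + 1) * l1 ^ K = (l1 * l1 ^ K) * (X ^ (1 / 200 : ℝ) + 1) := by ring
          _ ≤ z ^ 2 * (2 * z) := by
              apply mul_le_mul f5 (by linarith) (by positivity) (by positivity)
          _ ≤ z ^ 4 / 4 := by nlinarith [pow_pos (show 0 < z by linarith) 3]
      rw [div_div, le_div_iff₀ (by positivity)]
      rw [← f2] at f6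
      linarith
  obtain ⟨X₀, hX₀⟩ := eventually_atTop.1 key
  exact ⟨X₀, hX₀⟩

/-- the class of the elements with a given residue -/
theorem dense_class (T : Finset ℕ) (q : ℕ) (hq : 0 < q) (D X : ℝ) (hD : 0 < D) (hX : 0 < X)
    (hT : X / D ≤ T.card) : ∃ r : ℕ, X / (q * D) ≤ ((T.filter (fun a => a % q = r)).card : ℝ) := by
  have hTne : T.Nonempty := by
    rw [← card_pos]
    by_contra hcon
    have h1 : T.card = 0 := by omega
    rw [h1] at hT
    have : 0 < X / D := by positivity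
    simp only [Nat.cast_zero] at hT
    linarith
  obtain ⟨ρ, _, hρ⟩ := pig T (range q) q (fun a _ => mem_range.mpr (Nat.mod_lt _ hq)) hTne
  rw [card_range] at hρ
  have hqR : (0 : ℝ) < q := by exact_mod_cast hq
  refine ⟨ρ, ?_⟩
  have h1 : X / (q * D) = (X / D) / q := by
    field_simp
  rw [h1, div_le_iff₀ hqR]
  linarith

theorem main1 (K : ℕ) : ∃ c : ℝ, 0 < c ∧ ∃ N₀ : ℕ, ∀ N : ℕ, N₀ ≤ N →
    ∀ A B : Finset ℕ, A ⊆ Icc 1 N → B ⊆ Icc 1 N → (N : ℝ) / (Real.log N) ^ K ≤ A.card →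
    (N : ℝ) / (Real.log N) ^ K ≤ B.card → ∀ α β : ℤ, α ≠ 0 → β ≠ 0 →
    |(α : ℝ)| ≤ Real.exp ((Real.log N) ^ K) → |(β : ℝ)| ≤ Real.exp ((Real.log N) ^ K) →
    ∀ k : ℕ, 1 ≤ k → (k : ℝ) ≤ c * Real.log (Real.log N) → ∀ u w : Fin k → ℤ,
    (∀ i, u i ≠ 0 ∧ |(u i : ℝ)| ≤ Real.exp ((Real.log N) ^ K) ∧
      |(w i : ℝ)| ≤ Real.exp ((Real.log N) ^ K)) →
    ∃ a ∈ A, ∃ b ∈ B, ∀ i, ∀ p : ℕ, p.Prime →
      c / k * (Real.log N * Real.log (Real.log N)) <
        abs ((p : ℝ) - |(u i : ℝ) * (α * a + β * b) + w i|) := by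
  obtain ⟨c₀, hc₀, N₁, hsoft⟩ := softG (K + 2)
  obtain ⟨y₀, hsieve⟩ := int_sieve
  obtain ⟨X₁, hev⟩ := ev_one K y₀
  obtain ⟨X₂, hev2⟩ := ev_soft 50
  set c : ℝ := min (1 / 4) (c₀ / 200) with hc
  have hc0 : 0 < c := lt_min (by norm_num) (by positivity)
  have hc4 : c ≤ 1 / 4 := min_le_left _ _
  have hcc : c ≤ c₀ / 200 := min_le_right _ _
  refine ⟨c, hc0, max N₁ ⌈max X₁ X₂⌉₊, ?_⟩
  intro N hN A B hA hB hAc hBc α β hα hβ hαW hβW k hk1 hkc u w huw
  have hN1 : N₁ ≤ N := (le_max_left _ _).trans hN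
  have hNX : max X₁ X₂ ≤ (N : ℝ) :=
    (Nat.le_ceil _).trans (by exact_mod_cast (le_max_right _ _).trans hN)
  set X : ℝ := (N : ℝ) with hX
  obtain ⟨e0, e1, e2, e3, e4, e5, e6, e7, e8⟩ := hev X ((le_max_left _ _).trans hNX)
  obtain ⟨_, _, _, _, _, e9, _⟩ := hev2 X ((le_max_right _ _).trans hNX)
  set l : ℝ := Real.log X with hl
  set ll : ℝ := Real.log l with hll
  have hX0 : 0 < X := by linarith
  have hl0 : 0 < l := by linarith
  have hll0 : 0 < ll := by linarith
  have hkR : (1 : ℝ) ≤ k := by exact_mod_cast hk1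
  have hk0 : (0 : ℝ) < k := by linarith
  set H : ℝ := c / k * (l * ll) with hH
  have hHl : l ≤ H := by
    rw [hH, div_mul_eq_mul_div, le_div_iff₀ hk0]
    calc l * k ≤ l * (c * ll) := mul_le_mul_of_nonneg_left hkc hl0.le
      _ = c * (l * ll) := by ring
  have hHk : (k : ℝ) * H = c * (l * ll) := by
    rw [hH]
    field_simp
  set L : ℕ := ⌈H⌉₊ with hL
  have hLH : H ≤ L := Nat.le_ceil _
  have hLH2 : (L : ℝ) ≤ 2 * H := by
    have := Nat.ceil_lt_add_one (show 0 ≤ H by linarith)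
    rw [hL]
    linarith
  have hLl2 : (L : ℝ) ≤ l ^ 2 := by
    have h1 : H ≤ k * H := by nlinarith
    rw [hHk] at h1
    have h2 : c * (l * ll) ≤ 1 / 4 * (l * l) := by
      apply mul_le_mul hc4 _ (by positivity) (by norm_num)
      exact mul_le_mul_of_nonneg_left (by linarith) hl0.le
    nlinarith
  have hyL : l / 10 ≤ L := by linarith
  -- separation
  set g : ℕ := ⌈X ^ (1 / 200 : ℝ)⌉₊ with hg
  have hg1 : X ^ (1 / 200 : ℝ) ≤ g := Nat.le_ceil _
  have hg2 : (g : ℝ) < X ^ (1 / 200 : ℝ) + 1 := Nat.ceil_lt_add_one (Real.rpow_nonneg hX0.le _)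
  obtain ⟨A', hA', B', hB', hAA, hBB, hsep⟩ := splitS (univ : Finset (Fin k)) (fun i => u i * α)
    (fun i => u i * β) w (fun i => mul_ne_zero (huw i).1 hα) (fun i => mul_ne_zero (huw i).1 hβ) g A B
  rw [card_univ, Fintype.card_fin] at hAA hBB
  have h2k : (2 : ℝ) ^ k ≤ l / 4 := by
    have h1 : (2 : ℝ) ^ k ≤ Real.exp (ll / 2) := by
      calc (2 : ℝ) ^ k ≤ (Real.exp 1) ^ k := by
            apply pow_le_pow_left₀ (by norm_num)
            have := Real.exp_one_gt_d9
            linarith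
        _ = Real.exp (k * 1) := by rw [← Real.exp_nat_mul]
        _ ≤ Real.exp (ll / 2) := by
            apply Real.exp_le_exp.mpr
            nlinarith
    have h2 : Real.exp (ll / 2) * Real.exp (ll / 2) = l := by
      rw [← Real.exp_add, add_halves, hll, Real.exp_log hl0]
    have h3 : 3 ≤ Real.exp (ll / 2) := by
      have := Real.add_one_le_exp (ll / 2)
      linarith
    have h4 : 4 ≤ Real.exp (ll / 2) := by
      by_contra hcon
      push Not at hcon
      have : Real.exp (ll / 2) * Real.exp (ll / 2) < 4 * 4 :=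
        mul_lt_mul'' hcon hcon (Real.exp_pos _).le (Real.exp_pos _).le
      linarith
    nlinarith
  have hlK : 0 < l ^ K := by positivity
  have hXK : 0 < X / l ^ K := by positivity
  have hA'c : X / l ^ (K + 2) ≤ A'.card := by
    have h1 : (A.card : ℝ) ≤ 2 ^ k * (A'.card + 2 * g) := by exact_mod_cast hAA
    have h2 : (2 : ℝ) ^ k * (A'.card + 2 * g) ≤ l / 4 * (A'.card + 2 * g) :=
      mul_le_mul_of_nonneg_right h2k (by positivity)
    have h3 : l / 4 * (2 * (g : ℝ)) ≤ X / l ^ K / 4 := by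
      have : l / 4 * (2 * (g : ℝ)) ≤ l * (X ^ (1 / 200 : ℝ) + 1) := by nlinarith
      linarith
    have h4 : X / l ^ K / 2 ≤ l / 4 * A'.card := by nlinarith
    have h5 : X / l ^ (K + 2) ≤ X / l ^ K / 2 * (4 / l) := by
      have : X / l ^ K / 2 * (4 / l) = X / (l ^ K * (l / 2)) := by
        field_simp
        ring
      rw [this]
      apply div_le_div_of_nonneg_left hX0.le (by positivity)
      rw [pow_add]
      apply mul_le_mul_of_nonneg_left _ hlK.le
      nlinarith
    refine h5.trans ?_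
    calc X / l ^ K / 2 * (4 / l) ≤ l / 4 * A'.card * (4 / l) :=
          mul_le_mul_of_nonneg_right h4 (by positivity)
      _ = A'.card := by field_simp
  have hB'c : X / l ^ (K + 2) ≤ B'.card := by
    have h1 : (B.card : ℝ) ≤ 2 ^ k * B'.card := by exact_mod_cast hBB
    have h2 : (2 : ℝ) ^ k * B'.card ≤ l / 4 * B'.card :=
      mul_le_mul_of_nonneg_right h2k (by positivity)
    have h4 : X / l ^ K / 2 ≤ l / 4 * B'.card := by linarith
    have h5 : X / l ^ (K + 2) ≤ X / l ^ K / 2 * (4 / l) := by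
      have : X / l ^ K / 2 * (4 / l) = X / (l ^ K * (l / 2)) := by
        field_simp
        ring
      rw [this]
      apply div_le_div_of_nonneg_left hX0.le (by positivity)
      rw [pow_add]
      apply mul_le_mul_of_nonneg_left _ hlK.le
      nlinarith
    refine h5.trans ?_
    calc X / l ^ K / 2 * (4 / l) ≤ l / 4 * B'.card * (4 / l) :=
          mul_le_mul_of_nonneg_right h4 (by positivity)
      _ = B'.card := by field_simp
  set q : ℕ := primorial ⌊l / 10⌋₊ with hq
  have hq0 : 0 < q := primorial_pos _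
  obtain ⟨r, hr⟩ := dense_class A' q hq0 (l ^ (K + 2)) X (by positivity) hX0 hA'c
  obtain ⟨r', hr'⟩ := dense_class B' q hq0 (l ^ (K + 2)) X (by positivity) hX0 hB'c
  have hexpK : Real.exp (l ^ K) ≤ Real.exp (l ^ (K + 2)) := by
    have : 0 ≤ l ^ 2 := by positivity
    linarith
  obtain ⟨a, ha, b, hb, hfin⟩ := hsoft N hN1 α β hα hβ (hαW.trans hexpK) (hβW.trans hexpK)
    (win u w L)
    (by
      intro x hx
      unfold win at hx
      rw [mem_biUnion] at hx
      obtain ⟨i, _, hxi⟩ := hx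
      obtain ⟨h, hh, rfl⟩ := mem_image.mp hxi
      rw [mem_Icc] at hh
      refine ⟨(huw i).1, (huw i).2.1.trans hexpK, ?_⟩
      simp only
      push_cast
      refine (abs_add_le _ _).trans ?_
      have h1 : |(h : ℝ)| ≤ L := by
        rw [abs_le]
        exact ⟨by exact_mod_cast hh.1, by exact_mod_cast hh.2⟩
      have h2 := (huw i).2.2
      linarith) A' B' (hA'.trans hA) (hB'.trans hB) q rfl r r' hr hr'
    (by
      have h1 := win_count u w L (l / 10) (50 * L / Real.log (l / 10)) (α * r + β * r')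
        (fun s => hsieve (l / 10) e4 L hyL s)
      refine h1.trans ?_
      have h2 : 0 < Real.log (l / 10) := Real.log_pos e5
      rw [← mul_div_assoc, div_le_iff₀ h2]
      calc (k : ℝ) * (50 * L) ≤ k * (50 * (2 * H)) := by
            apply mul_le_mul_of_nonneg_left _ hk0.le
            linarith
        _ = 100 * (k * H) := by ring
        _ = 100 * (c * (l * ll)) := by rw [hHk]
        _ ≤ 100 * (c₀ / 200 * (l * ll)) := by
            apply mul_le_mul_of_nonneg_left _ (by norm_num)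
            exact mul_le_mul_of_nonneg_right hcc (by positivity)
        _ = c₀ * l * (ll / 2) := by ring
        _ ≤ c₀ * l * Real.log (l / 10) := mul_le_mul_of_nonneg_left e3 (by positivity))
  refine ⟨a, hA' ha, b, hB' hb, ?_⟩
  intro i p hp
  set n : ℤ := u i * (α * a + β * b) + w i with hn
  have hnR : (u i : ℝ) * (α * a + β * b) + w i = (n : ℝ) := by
    rw [hn]
    push_cast
    ring
  rw [hnR]
  have hng : X ^ (1 / 200 : ℝ) ≤ |(n : ℝ)| := by
    have h1 := hsep i (mem_univ _) a ha b hb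
    have h2 : u i * α * (a : ℤ) + u i * β * b + w i = n := by
      rw [hn]
      ring
    rw [h2] at h1
    have h3 : ((g : ℤ) : ℝ) ≤ ((|n| : ℤ) : ℝ) := by exact_mod_cast h1
    rw [Int.cast_abs] at h3
    push_cast at h3
    linarith
  by_contra hcon
  push Not at hcon
  have hconL : abs ((p : ℝ) - |(n : ℝ)|) ≤ L := hcon.trans hLH
  obtain ⟨e, he, hed⟩ : ∃ e : ℤ, (e = 1 ∨ e = -1) ∧ |n| = e * n := by
    rcases le_or_gt 0 n with h0 | h0
    · exact ⟨1, Or.inl rfl, by rw [abs_of_nonneg h0, one_mul]⟩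
    · exact ⟨-1, Or.inr rfl, by rw [abs_of_neg h0]; ring⟩
  have hedR : |(n : ℝ)| = ((e * n : ℤ) : ℝ) := by rw [← hed, Int.cast_abs]
  have h1 : |(p : ℤ) - e * n| ≤ L := by
    have : ((|(p : ℤ) - e * n| : ℤ) : ℝ) ≤ ((L : ℤ) : ℝ) := by
      rw [Int.cast_abs]
      rw [hedR] at hconL
      push_cast
      push_cast at hconL
      exact hconL
    exact_mod_cast this
  have h2 : |e * ((p : ℤ) - e * n)| ≤ L := by
    rw [abs_mul]
    rcases he with rfl | rfl
    · simpa using h1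
    · simpa using h1
  obtain ⟨π, hπ, hπz, hπd⟩ := hfin (u i, w i + e * ((p : ℤ) - e * n)) (by
    unfold win
    rw [mem_biUnion]
    refine ⟨i, mem_univ _, mem_image.mpr ⟨e * ((p : ℤ) - e * n), ?_, rfl⟩⟩
    rw [mem_Icc]
    exact abs_le.mp h2)
  simp only at hπd
  have h3 : u i * (α * (a : ℤ) + β * b) + (w i + e * ((p : ℤ) - e * n)) = e * p := by
    have h4 : u i * (α * (a : ℤ) + β * b) + (w i + e * ((p : ℤ) - e * n)) =
        n + e * ((p : ℤ) - e * n) := by
      rw [hn]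
      ring
    rw [h4]
    rcases he with rfl | rfl
    · ring
    · ring
  rw [h3] at hπd
  have h4 : (π : ℤ) ∣ (p : ℤ) := by
    rcases he with rfl | rfl
    · simpa using hπd
    · simpa using hπd
  have h5 : π = p := (Nat.prime_dvd_prime_iff_eq hπ hp).mp (by exact_mod_cast h4)
  have h7 : (p : ℝ) ≤ X ^ (1 / 10000 : ℝ) := by rw [← h5]; exact hπz
  have h8 := (abs_le.mp hconL).1
  linarith

end Pool.Agent.U642.DU
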