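import Pool.Agent.U642.DU.One

set_option autoImplicit false
set_option linter.unusedVariables false

/-! # Windows without primes at affine forms at two dense sets of integer vectors (helper642) -/

namespace Pool.Agent.U642.DU

open Finset Filter Pool.Agent.H256R2.SC Pool.Agent.U642.DS Pool.Agent.U642.DT

open scoped Classical

theorem pigF {α β : Type} [DecidableEq β] (A : Finset α) (f : α → β) (R : Finset β) (hR : ∀ a ∈ A, f a ∈ R)
    (hA : A.Nonempty) :
    ∃ ρ ∈ R, (A.card : ℝ) ≤ R.card * (A.filter (fun a => f a = ρ)).card := by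
  have hne : R.Nonempty := by
    obtain ⟨a, ha⟩ := hA
    exact ⟨_, hR a ha⟩
  by_contra hcon
  push Not at hcon
  have h1 : A.card = ∑ ρ ∈ R, (A.filter (fun a => f a = ρ)).card :=
    card_eq_sum_card_fiberwise hR
  have h2 : ∑ ρ ∈ R, (R.card : ℝ) * (A.filter (fun a => f a = ρ)).card <
      ∑ ρ ∈ R, (A.card : ℝ) := sum_lt_sum_of_nonempty hne hcon
  rw [← mul_sum, sum_const, nsmul_eq_mul] at h2
  have h3 : ∑ ρ ∈ R, ((A.filter (fun a => f a = ρ)).card : ℝ) = A.card := by
    rw [h1]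
    push_cast
    rfl
  rw [h3] at h2
  exact lt_irrefl _ h2

/-- a direction at which all forms are nonzero -/
theorem direction (d k : ℕ) (u : Fin k → Fin d → ℤ) (hu : ∀ i, u i ≠ 0) :
    ∃ t : ℕ, 1 ≤ t ∧ t ≤ k * d + 1 ∧ ∀ i, ∑ j : Fin d, u i j * (t : ℤ) ^ (j : ℕ) ≠ 0 := by
  set P : Fin k → Polynomial ℤ := fun i =>
    ∑ j : Fin d, Polynomial.C (u i j) * Polynomial.X ^ (j : ℕ) with hP
  have hcoef : ∀ i (j : Fin d), (P i).coeff j = u i j := by
    intro i j
    rw [hP]
    simp only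
    rw [Polynomial.finset_sum_coeff]
    simp only [Polynomial.coeff_C_mul, Polynomial.coeff_X_pow]
    rw [Finset.sum_eq_single j]
    · simp
    · intro b _ hb
      rw [if_neg, mul_zero]
      intro h
      exact hb (Fin.ext h.symm)
    · intro h
      exact absurd (mem_univ _) h
  have hP0 : ∀ i, P i ≠ 0 := by
    intro i h
    apply hu i
    funext j
    rw [← hcoef i j, h]
    simp
  have hPd : ∀ i, (P i).natDegree ≤ d := by
    intro i
    rw [hP]
    apply Polynomial.natDegree_sum_le_of_forall_le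
    intro j _
    refine (Polynomial.natDegree_C_mul_X_pow_le _ _).trans j.2.le
  have hQ0 : ∏ i, P i ≠ 0 := prod_ne_zero_iff.mpr fun i _ => hP0 i
  have hQd : (∏ i, P i).natDegree ≤ k * d := by
    refine (Polynomial.natDegree_prod_le _ _).trans ?_
    calc ∑ i, (P i).natDegree ≤ ∑ i : Fin k, d := sum_le_sum fun i _ => hPd i
      _ = k * d := by rw [sum_const, card_univ, Fintype.card_fin, smul_eq_mul]
  by_contra hcon
  push Not at hcon
  apply hQ0
  apply Polynomial.eq_zero_of_natDegree_lt_card_of_eval_eq_zero' (∏ i, P i)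
    ((Icc 1 (k * d + 1)).image (fun t : ℕ => (t : ℤ)))
  · intro x hx
    obtain ⟨t, ht, rfl⟩ := mem_image.mp hx
    rw [mem_Icc] at ht
    obtain ⟨i, hi⟩ := hcon t ht.1 ht.2
    rw [Polynomial.eval_prod]
    apply prod_eq_zero (mem_univ i)
    rw [hP]
    simp only
    rw [Polynomial.eval_finset_sum]
    simpa using hi
  · rw [card_image_of_injective _ Nat.cast_injective, Nat.card_Icc]
    omega

/-- a line with many points of a dense set -/
theorem line (d N T : ℕ) (t : ℕ) (ht : 1 ≤ t) (hT : t ^ d ≤ T) (hN : 1 ≤ N) (j₀ : Fin d)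
    (hj₀ : (j₀ : ℕ) = 0) (A : Finset (Fin d → ℤ)) (hA : ∀ x ∈ A, ∀ j, 1 ≤ x j ∧ x j ≤ N)
    (hne : A.Nonempty) :
    ∃ z : Fin d → ℤ, (∀ j, |z j| ≤ N * T) ∧ ∃ A₁ ⊆ Icc 1 N,
      (A.card : ℝ) ≤ (3 * N * T) ^ (d - 1) * A₁.card ∧
      ∀ s ∈ A₁, (fun j : Fin d => z j + s * (t : ℤ) ^ (j : ℕ)) ∈ A := by
  have hT1 : 1 ≤ T := le_trans (Nat.one_le_pow _ _ ht) hT
  set f : (Fin d → ℤ) → (Fin d → ℤ) := fun x j => x j - x j₀ * (t : ℤ) ^ (j : ℕ) with hf
  set R : Finset (Fin d → ℤ) := Fintype.piFinset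
    (fun j : Fin d => if j = j₀ then {0} else Icc (-((N : ℤ) * T)) (N * T)) with hR
  have hpow : ∀ j : Fin d, (t : ℤ) ^ (j : ℕ) ≤ T := by
    intro j
    have h1 : t ^ (j : ℕ) ≤ t ^ d := Nat.pow_le_pow_right ht j.2.le
    exact_mod_cast h1.trans hT
  have hfb : ∀ x ∈ A, ∀ j, |f x j| ≤ N * T := by
    intro x hx j
    obtain ⟨h1, h2⟩ := hA x hx j
    obtain ⟨h3, h4⟩ := hA x hx j₀
    have h5 : (0 : ℤ) ≤ x j₀ * (t : ℤ) ^ (j : ℕ) := by positivity
    have h6 : x j₀ * (t : ℤ) ^ (j : ℕ) ≤ N * T :=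
      mul_le_mul h4 (hpow j) (by positivity) (by positivity)
    have h7 : (N : ℤ) ≤ N * T := by
      have : (1 : ℤ) ≤ T := by exact_mod_cast hT1
      nlinarith [(Nat.cast_nonneg N : (0 : ℤ) ≤ N)]
    rw [hf, abs_le]
    simp only
    constructor <;> linarith
  have hmaps : ∀ x ∈ A, f x ∈ R := by
    intro x hx
    rw [hR, Fintype.mem_piFinset]
    intro j
    split_ifs with h
    · rw [mem_singleton, hf]
      simp only
      rw [h, hj₀]
      simp
    · rw [mem_Icc]
      exact abs_le.mp (hfb x hx j)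
  have hRc : (R.card : ℝ) ≤ (3 * N * T) ^ (d - 1) := by
    rw [hR, Fintype.card_piFinset]
    push_cast
    rw [← mul_prod_erase univ _ (mem_univ j₀), if_pos rfl, card_singleton, Nat.cast_one, one_mul]
    have h1 : ∏ j ∈ univ.erase j₀, (((if j = j₀ then ({0} : Finset ℤ) else
        Icc (-((N : ℤ) * T)) (N * T)).card : ℕ) : ℝ) ≤ ∏ j ∈ univ.erase j₀, (3 * (N : ℝ) * T) := by
      apply Finset.prod_le_prod
      · intro j _
        positivity
      · intro j hj
        rw [if_neg (ne_of_mem_erase hj), Int.card_Icc]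
        have h2 : ((N : ℤ) * T + 1 - -((N : ℤ) * T)).toNat = 2 * (N * T) + 1 := by
          have : (N : ℤ) * T + 1 - -((N : ℤ) * T) = ((2 * (N * T) + 1 : ℕ) : ℤ) := by
            push_cast
            ring
          rw [this, Int.toNat_natCast]
        rw [h2]
        push_cast
        have h3 : (1 : ℝ) ≤ N * T := by
          have : 1 ≤ N * T := Nat.mul_pos hN hT1
          exact_mod_cast this
        linarith
    refine h1.trans (le_of_eq ?_)
    rw [prod_const, card_erase_of_mem (mem_univ _), card_univ, Fintype.card_fin]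
  obtain ⟨z, hz, hzc⟩ := pigF A f R hmaps hne
  have hzz : ∃ x ∈ A, f x = z := by
    by_contra hcon
    push Not at hcon
    have h1 : A.filter (fun a => f a = z) = ∅ := by
      rw [filter_eq_empty_iff]
      exact hcon
    rw [h1, card_empty, Nat.cast_zero, mul_zero] at hzc
    have h2 : (0 : ℝ) < A.card := by exact_mod_cast card_pos.mpr hne
    linarith
  obtain ⟨x₀, hx₀, hx₀z⟩ := hzz
  refine ⟨z, ?_, (A.filter (fun a => f a = z)).image (fun x => (x j₀).toNat), ?_, ?_, ?_⟩
  · intro j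
    rw [← hx₀z]
    exact hfb x₀ hx₀ j
  · intro s hs
    obtain ⟨x, hx, rfl⟩ := mem_image.mp hs
    obtain ⟨h1, h2⟩ := hA x (mem_filter.mp hx).1 j₀
    rw [mem_Icc]
    omega
  · have hinj : ((A.filter (fun a => f a = z)).image (fun x => (x j₀).toNat)).card =
        (A.filter (fun a => f a = z)).card := by
      apply card_image_of_injOn
      intro x hx y hy hxy
      rw [mem_coe, mem_filter] at hx hy
      simp only at hxy
      have h1 := (hA x hx.1 j₀).1
      have h2 := (hA y hy.1 j₀).1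
      have h3 : x j₀ = y j₀ := by omega
      funext j
      have h4 := congrFun (hx.2.trans hy.2.symm) j
      rw [hf] at h4
      simp only at h4
      rw [h3] at h4
      linarith
    rw [hinj]
    refine hzc.trans ?_
    exact mul_le_mul_of_nonneg_right hRc (Nat.cast_nonneg _)
  · intro s hs
    obtain ⟨x, hx, rfl⟩ := mem_image.mp hs
    rw [mem_filter] at hx
    have h1 := (hA x hx.1 j₀).1
    have h2 : (((x j₀).toNat : ℕ) : ℤ) = x j₀ := Int.toNat_of_nonneg (by omega)
    have h3 : (fun j : Fin d => z j + ((x j₀).toNat : ℕ) * (t : ℤ) ^ (j : ℕ)) = x := by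
      funext j
      rw [h2, ← hx.2, hf]
      simp only
      ring
    rw [h3]
    exact hx.1

theorem ev_dim (d K : ℕ) : ∃ X₀ : ℝ, ∀ X : ℝ, X₀ ≤ X →
    1 < X ∧ 100 ≤ Real.log X ∧ 1 ≤ Real.log (Real.log X) ∧
    (d : ℝ) * Real.log (Real.log X) + 1 ≤ Real.log X ∧
    8 * (d : ℝ) * (Real.log X) ^ d + 8 ≤ Real.exp (Real.log X) := by
  have t2 : Tendsto (fun X : ℝ => Real.log (Real.log X)) atTop atTop :=
    Real.tendsto_log_atTop.comp Real.tendsto_log_atTop
  have h1 : ∀ᶠ X : ℝ in atTop, (8 * (d : ℝ) + 8) * Real.log X ^ d ≤ X := by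
    have e := (Real.isLittleO_pow_log_id_atTop (n := d)).bound
      (show (0 : ℝ) < 1 / (8 * (d : ℝ) + 8) by positivity)
    filter_upwards [e, eventually_gt_atTop (1 : ℝ)] with X hX hX1
    rw [Real.norm_of_nonneg (pow_nonneg (Real.log_nonneg hX1.le) _), id,
      Real.norm_of_nonneg (by linarith)] at hX
    rw [one_div, inv_mul_eq_div, le_div_iff₀ (by positivity)] at hX
    linarith
  have h2 : ∀ᶠ x : ℝ in atTop, (d : ℝ) * Real.log x + 1 ≤ x := by
    have e := (Real.isLittleO_log_id_atTop).bound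
      (show (0 : ℝ) < 1 / (2 * ((d : ℝ) + 1)) by positivity)
    filter_upwards [e, eventually_gt_atTop (2 : ℝ)] with x hx hx1
    rw [Real.norm_of_nonneg (Real.log_nonneg (by linarith)), id,
      Real.norm_of_nonneg (by linarith)] at hx
    rw [one_div, inv_mul_eq_div, le_div_iff₀ (by positivity)] at hx
    have h3 : 0 ≤ Real.log x := Real.log_nonneg (by linarith)
    nlinarith
  have key : ∀ᶠ X : ℝ in atTop, 1 < X ∧ 100 ≤ Real.log X ∧ 1 ≤ Real.log (Real.log X) ∧
    (d : ℝ) * Real.log (Real.log X) + 1 ≤ Real.log X ∧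
    8 * (d : ℝ) * (Real.log X) ^ d + 8 ≤ Real.exp (Real.log X) := by
    filter_upwards [eventually_gt_atTop (1 : ℝ), Real.tendsto_log_atTop.eventually_ge_atTop 100,
      t2.eventually_ge_atTop 1, h1, Real.tendsto_log_atTop.eventually h2] with X e0 e1 e2 e3 e4
    refine ⟨e0, e1, e2, e4, ?_⟩
    rw [Real.exp_log (by linarith)]
    have : 1 ≤ Real.log X ^ d := one_le_pow₀ (by linarith)
    nlinarith
  obtain ⟨X₀, hX₀⟩ := eventually_atTop.1 key
  exact ⟨X₀, hX₀⟩

theorem mainD (d K : ℕ) : ∃ c : ℝ, 0 < c ∧ ∃ N₀ : ℕ, ∀ N : ℕ, N₀ ≤ N →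
    ∀ A B : Finset (Fin d → ℤ), (∀ x ∈ A, ∀ j, 1 ≤ x j ∧ x j ≤ N) →
    (∀ x ∈ B, ∀ j, 1 ≤ x j ∧ x j ≤ N) → (N : ℝ) ^ d / (Real.log N) ^ K ≤ A.card →
    (N : ℝ) ^ d / (Real.log N) ^ K ≤ B.card → ∀ α β : ℤ, α ≠ 0 → β ≠ 0 →
    |(α : ℝ)| ≤ Real.exp ((Real.log N) ^ K) → |(β : ℝ)| ≤ Real.exp ((Real.log N) ^ K) →
    ∀ k : ℕ, 1 ≤ k → (k : ℝ) ≤ c * Real.log (Real.log N) → ∀ (u : Fin k → Fin d → ℤ) (w : Fin k → ℤ),
    (∀ i, u i ≠ 0 ∧ (∀ j, |(u i j : ℝ)| ≤ Real.exp ((Real.log N) ^ K)) ∧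
      |(w i : ℝ)| ≤ Real.exp ((Real.log N) ^ K)) →
    ∃ a ∈ A, ∃ b ∈ B, ∀ i, ∀ p : ℕ, p.Prime →
      c / k * (Real.log N * Real.log (Real.log N)) <
        abs ((p : ℝ) - |∑ j, (u i j : ℝ) * (α * a j + β * b j) + w i|) := by
  set K' : ℕ := K + (d + 1) ^ 2 + 3 with hK'
  obtain ⟨c, hc, N₁, hmain⟩ := main1 K'
  obtain ⟨X₁, hev⟩ := ev_dim d K
  refine ⟨min c 1, by positivity, max N₁ ⌈X₁⌉₊, ?_⟩
  intro N hN A B hA hB hAc hBc α β hα hβ hαW hβW k hk1 hkc u w huw
  have hN1 : N₁ ≤ N := (le_max_left _ _).trans hN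
  have hNX : X₁ ≤ (N : ℝ) := (Nat.le_ceil _).trans (by exact_mod_cast (le_max_right _ _).trans hN)
  set X : ℝ := (N : ℝ) with hX
  obtain ⟨e0, e1, e2, e3, e4⟩ := hev X hNX
  set l : ℝ := Real.log X with hl
  set ll : ℝ := Real.log l with hll
  have hX0 : 0 < X := by linarith
  have hl0 : 0 < l := by linarith
  have hkR : (1 : ℝ) ≤ k := by exact_mod_cast hk1
  have hXN : 1 ≤ N := by
    have : (1 : ℝ) ≤ N := e0.le
    exact_mod_cast this
  have hkll : (k : ℝ) ≤ ll := by
    refine hkc.trans ?_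
    have : min c 1 ≤ 1 := min_le_right _ _
    nlinarith
  have hkc' : (k : ℝ) ≤ c * ll := by
    refine hkc.trans ?_
    have : min c 1 ≤ c := min_le_left _ _
    exact mul_le_mul_of_nonneg_right this (by linarith)
  -- the first coordinate
  have hd : 0 < d := by
    rcases Nat.eq_zero_or_pos d with h | h
    · exfalso
      subst h
      apply (huw ⟨0, hk1⟩).1
      funext j
      exact absurd j.2 (by omega)
    · exact h
  set j₀ : Fin d := ⟨0, hd⟩ with hj₀
  obtain ⟨t, ht1, ht2, hdir⟩ := direction d k u (fun i => (huw i).1)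
  have htl : (t : ℝ) ≤ l := by
    have h1 : (t : ℝ) ≤ k * d + 1 := by exact_mod_cast ht2
    have h2 : (k : ℝ) * d ≤ d * ll := by
      rw [mul_comm]
      exact mul_le_mul_of_nonneg_left hkll (Nat.cast_nonneg _)
    linarith
  have htd : ((t ^ d : ℕ) : ℝ) ≤ l ^ d := by
    push_cast
    exact pow_le_pow_left₀ (Nat.cast_nonneg _) htl d
  have hpowR : ∀ j : Fin d, |((t : ℝ)) ^ (j : ℕ)| ≤ l ^ d := by
    intro j
    rw [abs_of_nonneg (by positivity)]
    refine le_trans ?_ htd
    push_cast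
    exact pow_le_pow_right₀ (by exact_mod_cast ht1) j.2.le
  have hldpos : 0 < l ^ d := by positivity
  have hline : ∀ S : Finset (Fin d → ℤ), (∀ x ∈ S, ∀ j, 1 ≤ x j ∧ x j ≤ N) →
      X ^ d / l ^ K ≤ S.card → ∃ z : Fin d → ℤ, (∀ j, |(z j : ℝ)| ≤ X * l ^ d) ∧
      ∃ S₁ ⊆ Icc 1 N, X / l ^ K' ≤ S₁.card ∧
        ∀ s ∈ S₁, (fun j : Fin d => z j + s * (t : ℤ) ^ (j : ℕ)) ∈ S := by
    intro S hS hSc
    have hne : S.Nonempty := by
      rw [← card_pos]
      by_contra hcon
      have h1 : S.card = 0 := by omega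
      rw [h1, Nat.cast_zero] at hSc
      have : 0 < X ^ d / l ^ K := by positivity
      linarith
    obtain ⟨z, hz, S₁, hS₁, hc1, hmem⟩ := line d N (t ^ d) t ht1 le_rfl hXN j₀ rfl S hS hne
    refine ⟨z, ?_, S₁, hS₁, ?_, hmem⟩
    · intro j
      have h1 : ((|z j| : ℤ) : ℝ) ≤ (((N : ℤ) * ((t ^ d : ℕ) : ℤ) : ℤ) : ℝ) := by
        exact_mod_cast hz j
      rw [Int.cast_abs] at h1
      refine h1.trans ?_
      rw [Int.cast_mul, Int.cast_natCast, Int.cast_natCast]
      exact mul_le_mul_of_nonneg_left htd hX0.le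
    · have h1 : X ^ d / l ^ K ≤ (3 * X * l ^ d) ^ (d - 1) * S₁.card := by
        refine (hSc.trans hc1).trans ?_
        apply mul_le_mul_of_nonneg_right _ (Nat.cast_nonneg _)
        apply pow_le_pow_left₀ (by positivity)
        exact mul_le_mul_of_nonneg_left htd (by positivity)
      have h2 : (3 * X * l ^ d) ^ (d - 1) ≤ X ^ (d - 1) * l ^ ((d + 1) ^ 2) := by
        have h3 : 3 * X * l ^ d ≤ X * l ^ (d + 1) := by
          rw [pow_succ]
          have : 0 < X * l ^ d := by positivity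
          nlinarith
        calc (3 * X * l ^ d) ^ (d - 1) ≤ (X * l ^ (d + 1)) ^ (d - 1) :=
              pow_le_pow_left₀ (by positivity) h3 _
          _ = X ^ (d - 1) * l ^ ((d + 1) * (d - 1)) := by rw [mul_pow, ← pow_mul]
          _ ≤ X ^ (d - 1) * l ^ ((d + 1) ^ 2) := by
              apply mul_le_mul_of_nonneg_left _ (by positivity)
              apply pow_le_pow_right₀ (by linarith)
              rw [sq]
              exact Nat.mul_le_mul_left _ (by omega)
      have h3 : X ^ d = X ^ (d - 1) * X := by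
        rw [← pow_succ]
        congr 1
        omega
      have h4 : X ^ (d - 1) * X / l ^ K ≤ X ^ (d - 1) * l ^ ((d + 1) ^ 2) * S₁.card := by
        rw [← h3]
        exact h1.trans (mul_le_mul_of_nonneg_right h2 (Nat.cast_nonneg _))
      have h5 : X / l ^ (K + (d + 1) ^ 2) ≤ S₁.card := by
        rw [div_le_iff₀ (by positivity)]
        rw [div_le_iff₀ (by positivity)] at h4
        have h6 : X ^ (d - 1) * X ≤ X ^ (d - 1) * (S₁.card * l ^ (K + (d + 1) ^ 2)) := by
          refine h4.trans (le_of_eq ?_)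
          rw [pow_add]
          ring
        exact le_of_mul_le_mul_left h6 (by positivity)
      refine le_trans ?_ h5
      apply div_le_div_of_nonneg_left hX0.le (by positivity)
      apply pow_le_pow_right₀ (by linarith)
      omega
  obtain ⟨z, hz, A₁, hA₁, hA₁c, hA₁m⟩ := hline A hA hAc
  obtain ⟨z', hz', B₁, hB₁, hB₁c, hB₁m⟩ := hline B hB hBc
  -- sizes
  set W : ℝ := l ^ K with hW
  have hW1 : 1 ≤ W := one_le_pow₀ (by linarith)
  have hexpl : Real.exp l = X := Real.exp_log hX0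
  have hWl : 2 * W + 3 * l ≤ l ^ K' := by
    have h1 : l ^ (K + 2) ≤ l ^ K' := pow_le_pow_right₀ (by linarith) (by omega)
    have h2 : l ^ (K + 2) = W * l ^ 2 := pow_add _ _ _
    have h3 : 2 * W + 3 * l ≤ W * l ^ 2 := by
      have h4 : 3 * l ≤ W * (3 * l) := by nlinarith
      have h5 : 2 + 3 * l ≤ l ^ 2 := by nlinarith
      nlinarith
    linarith
  have hKK : Real.exp W ≤ Real.exp (l ^ K') := Real.exp_le_exp.mpr (by linarith)
  have hexpW1 : 1 ≤ Real.exp W := Real.one_le_exp (by linarith)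
  have hsumle : ∀ (i : Fin k) (f : Fin d → ℝ) (F : ℝ), (∀ j, |f j| ≤ F) →
      |∑ j, (u i j : ℝ) * f j| ≤ d * (Real.exp W * F) := by
    intro i f F hF
    refine (abs_sum_le_sum_abs _ _).trans ?_
    have : (d : ℝ) * (Real.exp W * F) = ∑ j : Fin d, Real.exp W * F := by
      rw [sum_const, card_univ, Fintype.card_fin, nsmul_eq_mul]
    rw [this]
    apply sum_le_sum
    intro j _
    rw [abs_mul]
    exact mul_le_mul ((huw i).2.1 j) (hF j) (abs_nonneg _) (Real.exp_pos _).le
  have hdl : (d : ℝ) * l ^ d ≤ Real.exp l / 8 := by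
    have : 0 < l ^ d := hldpos
    nlinarith
  obtain ⟨s, hs, s', hs', hfin⟩ := hmain N hN1 A₁ B₁ hA₁ hB₁ hA₁c hB₁c α β hα hβ
    (hαW.trans hKK) (hβW.trans hKK) k hk1 hkc' (fun i => ∑ j : Fin d, u i j * (t : ℤ) ^ (j : ℕ))
    (fun i => ∑ j : Fin d, u i j * (α * z j + β * z' j) + w i)
    (by
      intro i
      refine ⟨hdir i, ?_, ?_⟩
      · push_cast
        refine (hsumle i (fun j => (t : ℝ) ^ (j : ℕ)) (l ^ d) hpowR).trans ?_
        calc (d : ℝ) * (Real.exp W * l ^ d) = Real.exp W * (d * l ^ d) := by ring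
          _ ≤ Real.exp W * Real.exp l := by
              apply mul_le_mul_of_nonneg_left _ (Real.exp_pos _).le
              have := Real.exp_pos l
              linarith
          _ = Real.exp (W + l) := (Real.exp_add _ _).symm
          _ ≤ Real.exp (l ^ K') := Real.exp_le_exp.mpr (by linarith)
      · push_cast
        have h1 : ∀ j, |(α : ℝ) * z j + β * z' j| ≤ 2 * (Real.exp W * (X * l ^ d)) := by
          intro j
          refine (abs_add_le _ _).trans ?_
          rw [abs_mul, abs_mul]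
          have h2 : |(α : ℝ)| * |(z j : ℝ)| ≤ Real.exp W * (X * l ^ d) :=
            mul_le_mul hαW (hz j) (abs_nonneg _) (Real.exp_pos _).le
          have h3 : |(β : ℝ)| * |(z' j : ℝ)| ≤ Real.exp W * (X * l ^ d) :=
            mul_le_mul hβW (hz' j) (abs_nonneg _) (Real.exp_pos _).le
          linarith
        refine (abs_add_le _ _).trans ?_
        have h4 := hsumle i (fun j => (α : ℝ) * z j + β * z' j) _ h1
        have h5 := (huw i).2.2
        have h6 : (d : ℝ) * (Real.exp W * (2 * (Real.exp W * (X * l ^ d)))) =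
            2 * (Real.exp W * Real.exp W * X) * (d * l ^ d) := by ring
        rw [h6] at h4
        have h7 : 2 * (Real.exp W * Real.exp W * X) * (d * l ^ d) ≤
            2 * (Real.exp W * Real.exp W * X) * (Real.exp l / 8) :=
          mul_le_mul_of_nonneg_left hdl (by positivity)
        have h8 : Real.exp W ≤ Real.exp W * Real.exp W * X * Real.exp l / 2 := by
          have g1 : 2 ≤ Real.exp l := by
            have := Real.add_one_le_exp l
            linarith
          have g2 : 1 ≤ Real.exp W * X := by nlinarith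
          have g3 : 2 ≤ Real.exp W * X * Real.exp l := by nlinarith
          have g4 : Real.exp W * 2 ≤ Real.exp W * (Real.exp W * X * Real.exp l) :=
            mul_le_mul_of_nonneg_left g3 (Real.exp_pos _).le
          linarith
        have h9 : Real.exp W * Real.exp W * X * Real.exp l ≤ Real.exp (l ^ K') := by
          rw [← hexpl, ← Real.exp_add, ← Real.exp_add, ← Real.exp_add]
          exact Real.exp_le_exp.mpr (by linarith)
        linarith)
  refine ⟨_, hA₁m s hs, _, hB₁m s' hs', ?_⟩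
  intro i p hp
  have h1 := hfin i p hp
  refine lt_of_le_of_lt ?_ (h1.trans_eq ?_)
  · apply mul_le_mul_of_nonneg_right _ (by nlinarith)
    apply div_le_div_of_nonneg_right (min_le_left _ _) (by positivity)
  · congr 3
    push_cast
    rw [sum_mul, ← add_assoc, ← sum_add_distrib]
    congr 1
    apply sum_congr rfl
    intro j _
    ring

end Pool.Agent.U642.DU
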