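import Pool.Agent.U642.DS.Cov

set_option autoImplicit false
set_option linter.unusedSectionVars false
set_option linter.unusedVariables false

/-! # Positivity over linear forms in the elements of two dense sets (helper642)

Adapted from `DS/Fou.lean`. -/

namespace Pool.Agent.U642.DU


open Pool.Agent.U642.DS Finset Pool.Agent.H256R2.SC Pool.Agent.Helper112

theorem sepM {n : ℕ} (q : Fin n → ℕ) (hq : ∀ i, (q i).Prime) (hinj : Function.Injective q) (R : ℕ)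
    (μ : ℤ) (hμ : ∀ i, ¬ (q i : ℤ) ∣ μ)
    (b b' : Fin n → ℕ) (hb : ∀ i, b i < q i) (hb' : ∀ i, b' i < q i)
    (hR : ∏ i with b i ≠ 0, q i ≤ R) (hR' : ∏ i with b' i ≠ 0, q i ≤ R) (hne : b ≠ b') :
    lsSep (R ^ 2) ((μ : ℝ) * (∑ i, (b' i : ℝ) / q i) - μ * (∑ i, (b i : ℝ) / q i)) := by
  classical
  set s : Finset (Fin n) := univ.filter (fun i => b i ≠ 0) with hs
  set s' : Finset (Fin n) := univ.filter (fun i => b' i ≠ 0) with hs'
  set y : Fin n → ℤ := fun i => μ * ((b' i : ℤ) - b i) with hy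
  have e1 : (μ : ℝ) * (∑ i, (b' i : ℝ) / q i) - μ * (∑ i, (b i : ℝ) / q i) = ∑ i ∈ s ∪ s', (y i : ℝ) / q i := by
    rw [mul_sum, mul_sum, ← sum_sub_distrib]
    symm
    apply sum_subset_zero_on_sdiff (subset_univ _)
    · intro i hi
      rw [mem_sdiff, mem_union, not_or] at hi
      have h1 : b i = 0 := by
        by_contra h
        exact hi.2.1 (mem_filter.mpr ⟨mem_univ _, h⟩)
      have h2 : b' i = 0 := by
        by_contra h
        exact hi.2.2 (mem_filter.mpr ⟨mem_univ _, h⟩)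
      rw [h1, h2]
      simp
    · intro i _
      rw [hy]
      push_cast
      ring
  set D : ℕ := (∏ i ∈ s, q i) * ∏ i ∈ s', q i with hD
  have hpos : ∀ t : Finset (Fin n), 0 < ∏ i ∈ t, q i := fun t => prod_pos fun i _ => (hq i).pos
  have hD0 : 0 < D := Nat.mul_pos (hpos s) (hpos s')
  have hDR : D ≤ R ^ 2 := by
    rw [pow_two]
    exact Nat.mul_le_mul hR hR'
  have hdvd : ∀ i ∈ s ∪ s', q i ∣ D := by
    intro i hi
    rw [mem_union] at hi
    rcases hi with hi | hi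
    · exact Dvd.dvd.mul_right (dvd_prod_of_mem _ hi) _
    · exact Dvd.dvd.mul_left (dvd_prod_of_mem _ hi) _
  rw [e1, frac_sumq (s ∪ s') q y D hD0 hdvd]
  apply sep_of_fracq _ _ hD0 hDR
  rintro ⟨k, hk⟩
  apply hne
  have hDRn : (D : ℝ) ≠ 0 := by positivity
  have e2 : ∑ i ∈ s ∪ s', (y i : ℝ) / q i = k := by
    rw [frac_sumq (s ∪ s') q y D hD0 hdvd, hk, div_eq_iff hDRn]
    push_cast
    ring
  funext i
  by_cases hi : i ∈ s ∪ s'
  · have h1 := int_zeroq (s ∪ s') q (fun i _ => hq i) (fun i _ j _ hij h => hij (hinj h)) y k e2 i hi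
    have h1' : (q i : ℤ) ∣ (b' i : ℤ) - b i := by
      rcases (Nat.prime_iff_prime_int.mp (hq i)).dvd_or_dvd h1 with h | h
      · exact absurd h (hμ i)
      · exact h
    have h2 : (b' i : ℤ) - b i = 0 := by
      apply Int.eq_zero_of_abs_lt_dvd h1'
      have := hb i
      have := hb' i
      rw [abs_lt]
      constructor <;> omega
    omega
  · rw [mem_union, not_or] at hi
    have h1 : b i = 0 := by
      by_contra h
      exact hi.1 (mem_filter.mpr ⟨mem_univ _, h⟩)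
    have h2 : b' i = 0 := by
      by_contra h
      exact hi.2 (mem_filter.mpr ⟨mem_univ _, h⟩)
    rw [h1, h2]

section fourier

variable {κ : Type} [Fintype κ] [DecidableEq κ]

theorem Sx_lsM {PP : Finset ℕ} (hP : ∀ p ∈ PP, p.Prime) (μ : ℤ) (hμ : ∀ p ∈ PP, ¬ (p : ℤ) ∣ μ) (A : Finset ℕ) (M R : ℕ) (hA : A ⊆ Icc 1 M)
    (hR : 1 ≤ R) (T : Finset (Fin PP.card → ℕ)) (hT : ∀ b ∈ T, b ∈ Bs PP)
    (hTR : ∀ b ∈ T, ∏ i with b i ≠ 0, emb PP i ≤ R) :
    ∑ b ∈ T, ‖Sx A (μ * xi PP b)‖ ^ 2 ≤ 6 * ((M : ℝ) + (R : ℝ) ^ 2) * A.card := by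
  classical
  have h1 := ls_general T (fun b => μ * xi PP b) (R ^ 2) M (Nat.one_le_pow _ _ hR) (by
    intro b hb b' hb' hne
    have e1 := Fintype.mem_piFinset.mp (hT b hb)
    have e2 := Fintype.mem_piFinset.mp (hT b' hb')
    exact sepM (fun i => emb PP i) (fun i => hP _ (emb_mem PP i)) (emb PP).injective R μ
      (fun i => hμ _ (emb_mem PP i)) b b'
      (fun i => mem_range.mp (e1 i)) (fun i => mem_range.mp (e2 i)) (hTR b hb) (hTR b' hb') hne)
    (fun n => if n ∈ A then 1 else 0)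
  have h2 : ∀ x : ℝ, ∑ n ∈ Icc 1 M, (if n ∈ A then (1 : ℂ) else 0) * ee (n * x) = Sx A x := by
    intro x
    unfold Sx
    simp only [ite_mul, one_mul, zero_mul]
    rw [sum_ite_mem, inter_eq_right.mpr hA]
  have h3 : ∑ n ∈ Icc 1 M, ‖(if n ∈ A then (1 : ℂ) else 0)‖ ^ 2 = A.card := by
    have : ∀ n ∈ Icc 1 M, ‖(if n ∈ A then (1 : ℂ) else 0)‖ ^ 2 = if n ∈ A then (1 : ℝ) else 0 := by
      intro n _
      split_ifs <;> simp
    rw [sum_congr rfl this, sum_ite_mem, inter_eq_right.mpr hA]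
    simp
  simp only [h2] at h1
  rw [h3] at h1
  refine h1.trans (le_of_eq ?_)
  push_cast
  ring

theorem diffmainM {PP : Finset ℕ} (hP : ∀ p ∈ PP, p.Prime) (μ ν : ℤ)
    (hμ : ∀ p ∈ PP, ¬ (p : ℤ) ∣ μ) (hν : ∀ p ∈ PP, ¬ (p : ℤ) ∣ ν) {res : ℕ → κ → ℤ}
    (hinj : ∀ p ∈ PP, ∀ k l, k ≠ l → ¬ ((p : ℤ) ∣ res p k - res p l)) (F : Col PP.card κ → ℝ)
    (Qt B : ℝ) (hF : Lv (fun i => ((emb PP i : ℕ) : ℝ)) Qt B F)
    (hu : ∀ i, (Fintype.card κ : ℝ) * (1 / ((emb PP i : ℕ) : ℝ)) ≤ 1 / 3) (E m : ℝ) (hE0 : 0 ≤ E)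
    (hE : ∀ i₀, ∑ x, |F x| * ∏ i, (if i = i₀ then w0 (1 / ((emb PP i : ℕ) : ℝ)) (x i) else
      wt (1 / ((emb PP i : ℕ) : ℝ)) (x i)) ≤ E)
    (hm : m ≤ EE (fun i => 1 / ((emb PP i : ℕ) : ℝ)) F) (R : ℕ) (hR : 1 ≤ R) (hQR : Qt ≤ R)
    (A A' : Finset ℕ) (M : ℕ) (hA : A ⊆ Icc 1 M) (hA' : A' ⊆ Icc 1 M)
    (hbig : 3 * E * ((M : ℝ) + (R : ℝ) ^ 2) * (A.card + A'.card) < m * (A.card * A'.card)) :
    ∃ a ∈ A, ∃ a' ∈ A', 0 < F (colr PP res (μ * (a : ℤ) - ν * a')) := by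
  classical
  by_contra hcon
  push Not at hcon
  set T : Finset (Fin PP.card → ℕ) := (Bs PP).filter (fun b => ∏ i with b i ≠ 0, emb PP i ≤ R) with hT
  have hzero : (fun _ => 0 : Fin PP.card → ℕ) ∈ T := by
    rw [hT, mem_filter]
    refine ⟨?_, ?_⟩
    · unfold Bs
      rw [Fintype.mem_piFinset]
      intro i
      exact mem_range.mpr (hP _ (emb_mem PP i)).pos
    · simpa using hR
  have hexp : ∀ a : ℤ, (F (colr PP res a) : ℂ) = ∑ b ∈ T, cF PP res F b * ee ((a : ℝ) * xi PP b) := by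
    intro a
    rw [F_exp hP hinj, hT, sum_filter]
    apply sum_congr rfl
    intro b _
    split_ifs with h
    · rfl
    · have : cF PP res F b = 0 := by
        by_contra h0
        apply h
        have := cF_level hP F Qt B hF b h0
        exact_mod_cast this.trans hQR
      rw [this, zero_mul]
  have hsum : ((∑ a ∈ A, ∑ a' ∈ A', F (colr PP res (μ * (a : ℤ) - ν * a')) : ℝ) : ℂ) =
      ∑ b ∈ T, cF PP res F b * (Sx A (μ * xi PP b) * (starRingEnd ℂ) (Sx A' (ν * xi PP b))) := by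
    push_cast
    have e1 : ∀ a ∈ A, ∀ a' ∈ A', (F (colr PP res (μ * (a : ℤ) - ν * a')) : ℂ) =
        ∑ b ∈ T, cF PP res F b * (ee ((a : ℝ) * (μ * xi PP b)) *
          (starRingEnd ℂ) (ee ((a' : ℝ) * (ν * xi PP b)))) := by
      intro a _ a' _
      rw [hexp]
      apply sum_congr rfl
      intro b _
      rw [ls_conj_ee, ← ls_ee_add]
      congr 2
      push_cast
      ring
    rw [sum_congr rfl fun a ha => sum_congr rfl fun a' ha' => e1 a ha a' ha']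
    rw [sum_congr rfl fun a (_ : a ∈ A) => sum_comm, sum_comm]
    apply sum_congr rfl
    intro b _
    unfold Sx
    rw [map_sum, sum_mul_sum, mul_sum]
    apply sum_congr rfl
    intro a _
    rw [mul_sum]
  rw [← add_sum_erase T _ hzero] at hsum
  have h0 : cF PP res F (fun _ => 0) * (Sx A (μ * xi PP (fun _ => 0)) *
      (starRingEnd ℂ) (Sx A' (ν * xi PP (fun _ => 0)))) =
      ((EE (fun i => 1 / ((emb PP i : ℕ) : ℝ)) F * (A.card * A'.card) : ℝ) : ℂ) := by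
    have e1 : xi PP (fun _ => 0) = 0 := by
      unfold xi
      simp
    have e2 : ∀ C : Finset ℕ, Sx C 0 = C.card := by
      intro C
      unfold Sx
      simp [ls_ee_zero]
    rw [cF_zero, e1, mul_zero, mul_zero, e2, e2]
    push_cast
    simp
  rw [h0] at hsum
  set X : ℝ := ∑ a ∈ A, ∑ a' ∈ A', F (colr PP res (μ * (a : ℤ) - ν * a')) with hX
  have hX0 : X ≤ 0 := sum_nonpos fun a ha => sum_nonpos fun a' ha' => hcon a ha a' ha'
  set Y : ℂ := ∑ b ∈ T.erase (fun _ => 0), cF PP res F b *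
    (Sx A (μ * xi PP b) * (starRingEnd ℂ) (Sx A' (ν * xi PP b))) with hY
  have hYn : ‖Y‖ ≤ 3 * E * ((M : ℝ) + (R : ℝ) ^ 2) * (A.card + A'.card) := by
    rw [hY]
    refine (norm_sum_le _ _).trans ?_
    have e1 : ∀ b ∈ T.erase (fun _ => 0), ‖cF PP res F b *
        (Sx A (μ * xi PP b) * (starRingEnd ℂ) (Sx A' (ν * xi PP b)))‖ ≤
        E * (1 / 2 * (‖Sx A (μ * xi PP b)‖ ^ 2 + ‖Sx A' (ν * xi PP b)‖ ^ 2)) := by
      intro b hb
      have hb0 : b ≠ fun _ => 0 := ne_of_mem_erase hb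
      obtain ⟨i₀, hi₀⟩ : ∃ i, b i ≠ 0 := by
        by_contra h
        push Not at h
        exact hb0 (funext h)
      rw [norm_mul, norm_mul, RCLike.norm_conj]
      have e2 := (cF_norm (res := res) F hu b i₀ hi₀).trans (hE i₀)
      have e3 : ‖Sx A (μ * xi PP b)‖ * ‖Sx A' (ν * xi PP b)‖ ≤
          1 / 2 * (‖Sx A (μ * xi PP b)‖ ^ 2 + ‖Sx A' (ν * xi PP b)‖ ^ 2) := by
        nlinarith [sq_nonneg (‖Sx A (μ * xi PP b)‖ - ‖Sx A' (ν * xi PP b)‖)]
      exact mul_le_mul e2 e3 (by positivity) hE0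
    refine (sum_le_sum e1).trans ?_
    rw [← mul_sum, ← mul_sum, sum_add_distrib]
    have e4 : ∀ (C : Finset ℕ) (τ : ℤ), (∀ p ∈ PP, ¬ (p : ℤ) ∣ τ) → C ⊆ Icc 1 M →
        ∑ b ∈ T.erase (fun _ => 0), ‖Sx C (τ * xi PP b)‖ ^ 2 ≤
        6 * ((M : ℝ) + (R : ℝ) ^ 2) * C.card := by
      intro C τ hτ hC
      refine le_trans (sum_le_sum_of_subset_of_nonneg (erase_subset _ _)
        fun b _ _ => sq_nonneg _) ?_
      exact Sx_lsM hP τ hτ C M R hC hR T (fun b hb => (mem_filter.mp hb).1) fun b hb => (mem_filter.mp hb).2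
    have e5 := e4 A μ hμ hA
    have e6 := e4 A' ν hν hA'
    calc E * (1 / 2 * (∑ b ∈ T.erase (fun _ => 0), ‖Sx A (μ * xi PP b)‖ ^ 2 +
          ∑ b ∈ T.erase (fun _ => 0), ‖Sx A' (ν * xi PP b)‖ ^ 2))
        ≤ E * (1 / 2 * (6 * ((M : ℝ) + (R : ℝ) ^ 2) * A.card +
          6 * ((M : ℝ) + (R : ℝ) ^ 2) * A'.card)) := by
          apply mul_le_mul_of_nonneg_left _ hE0
          linarith
      _ = _ := by ring
  have h1 : (X : ℂ) - ((EE (fun i => 1 / ((emb PP i : ℕ) : ℝ)) F * (A.card * A'.card) : ℝ) : ℂ) = Y := by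
    rw [hsum]
    ring
  have h2 : |X - EE (fun i => 1 / ((emb PP i : ℕ) : ℝ)) F * (A.card * A'.card)| ≤
      3 * E * ((M : ℝ) + (R : ℝ) ^ 2) * (A.card + A'.card) := by
    rw [← Real.norm_eq_abs, ← Complex.norm_real, Complex.ofReal_sub, h1]
    exact hYn
  have h3 := (abs_le.mp h2).1
  have h4 : m * (A.card * A'.card) ≤ EE (fun i => 1 / ((emb PP i : ℕ) : ℝ)) F * (A.card * A'.card) :=
    mul_le_mul_of_nonneg_right hm (by positivity)
  linarith

end fourier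

end Pool.Agent.U642.DU
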