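import Pool.Agent.U642.DU.Prog

set_option autoImplicit false
set_option linter.unusedVariables false

/-! # Least primes in the classes of affine functions at two dense sets in `F_q`-vector spaces (helper642) -/

namespace Pool.Agent.U642.DU

open Finset Filter Pool.Agent.H256R2.SC Pool.Agent.U642.DS Pool.Agent.U642.DT

open scoped Classical

/-- a vector at which finitely many functionals are nonzero -/
theorem good_vec {q : ℕ} [Fact q.Prime] {V : Type} [AddCommGroup V] [Module (ZMod q) V] {ι : Type}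
    (lam : ι → (V →ₗ[ZMod q] ZMod q)) (s : Finset ι) (hs : ∀ i ∈ s, lam i ≠ 0) (hq : s.card < q) :
    ∃ v : V, ∀ i ∈ s, lam i v ≠ 0 := by
  induction s using Finset.induction_on with
  | empty => exact ⟨0, fun i hi => by simp at hi⟩
  | insert i s his ih =>
    rw [card_insert_of_notMem his] at hq
    obtain ⟨v, hv⟩ := ih (fun j hj => hs j (mem_insert_of_mem hj)) (by omega)
    obtain ⟨w, hw⟩ : ∃ w : V, lam i w ≠ 0 := by
      by_contra hcon
      push Not at hcon
      apply hs i (mem_insert_self _ _)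
      ext x
      exact hcon x
    by_cases h0 : lam i v = 0
    · set bad : Finset (ZMod q) := insert 0 (s.image (fun j => -(lam j v) / lam j w)) with hbad
      obtain ⟨c, hc⟩ : ∃ c : ZMod q, c ∉ bad := by
        by_contra hcon
        push Not at hcon
        have h1 : bad = univ := by
          ext c
          simp [hcon c]
        have h2 : bad.card ≤ s.card + 1 :=
          (card_insert_le _ _).trans (Nat.add_le_add_right card_image_le 1)
        rw [h1, card_univ, ZMod.card] at h2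
        omega
      rw [hbad, mem_insert, not_or, mem_image] at hc
      refine ⟨v + c • w, ?_⟩
      intro j hj
      rw [map_add, map_smul, smul_eq_mul]
      rw [mem_insert] at hj
      rcases hj with rfl | hj
      · rw [h0, zero_add]
        exact mul_ne_zero hc.1 hw
      · by_cases h3 : lam j w = 0
        · rw [h3, mul_zero, add_zero]
          exact hv j hj
        · intro h4
          apply hc.2
          refine ⟨j, hj, ?_⟩
          rw [div_eq_iff h3]
          linear_combination (-1 : ZMod q) * h4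
    · refine ⟨v, ?_⟩
      intro j hj
      rw [mem_insert] at hj
      rcases hj with rfl | hj
      · exact h0
      · exact hv j hj

/-- simultaneous small multiples modulo `q` -/
theorem dirichlet {q : ℕ} [Fact q.Prime] (k Q : ℕ) (hQ : 1 ≤ Q) (a : Fin k → ZMod q) :
    ∃ m : ℕ, 1 ≤ m ∧ m ≤ Q ^ k ∧ ∃ r : Fin k → ℤ, ∀ i, ((r i : ℤ) : ZMod q) = m * a i ∧
      |r i| * Q ≤ q := by
  have hq0 : 0 < q := (Fact.out : q.Prime).pos
  have hmaps : ∀ m ∈ range (Q ^ k + 1), (fun i : Fin k => (((m : ZMod q) * a i).val * Q) / q) ∈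
      Fintype.piFinset (fun _ : Fin k => range Q) := by
    intro m _
    rw [Fintype.mem_piFinset]
    intro i
    rw [mem_range, Nat.div_lt_iff_lt_mul hq0]
    have h1 := ZMod.val_lt ((m : ZMod q) * a i)
    calc ((m : ZMod q) * a i).val * Q < q * Q := Nat.mul_lt_mul_of_pos_right h1 hQ
      _ = Q * q := mul_comm _ _
  obtain ⟨m₁, hm₁, m₂, hm₂, hne, heq⟩ := exists_ne_map_eq_of_card_lt_of_maps_to
    (by rw [Fintype.card_piFinset, card_range]; simp) hmaps
  rw [mem_range] at hm₁ hm₂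
  have key : ∀ n₁ n₂ : ℕ, n₁ < n₂ → n₂ < Q ^ k + 1 →
      (fun i : Fin k => (((n₁ : ZMod q) * a i).val * Q) / q) =
        (fun i : Fin k => (((n₂ : ZMod q) * a i).val * Q) / q) →
      ∃ m : ℕ, 1 ≤ m ∧ m ≤ Q ^ k ∧ ∃ r : Fin k → ℤ, ∀ i, ((r i : ℤ) : ZMod q) = m * a i ∧
        |r i| * Q ≤ q := by
    intro n₁ n₂ h1 h2 h3
    refine ⟨n₂ - n₁, by omega, by omega,
      fun i => (((n₂ : ZMod q) * a i).val : ℤ) - (((n₁ : ZMod q) * a i).val : ℤ), ?_⟩
    intro i
    constructor
    · push_cast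
      rw [ZMod.natCast_zmod_val, ZMod.natCast_zmod_val, Nat.cast_sub h1.le]
      ring
    · have h4 : ((n₁ : ZMod q) * a i).val * Q / q = ((n₂ : ZMod q) * a i).val * Q / q :=
        congrFun h3 i
      set x := ((n₁ : ZMod q) * a i).val * Q with hx
      set z := ((n₂ : ZMod q) * a i).val * Q with hz
      have h5 := Nat.div_add_mod x q
      have h6 := Nat.div_add_mod z q
      have h7 := Nat.mod_lt x hq0
      have h8 := Nat.mod_lt z hq0
      have h9 : |((((n₂ : ZMod q) * a i).val : ℤ) - (((n₁ : ZMod q) * a i).val : ℤ))| * Q =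
          |(z : ℤ) - x| := by
        rw [hx, hz]
        push_cast
        rw [← sub_mul, abs_mul, Nat.abs_cast]
      rw [h9, ← h5, ← h6, h4, abs_le]
      push_cast
      constructor
      · have : (0 : ℤ) ≤ ((z % q : ℕ) : ℤ) := by positivity
        have : ((x % q : ℕ) : ℤ) < q := by exact_mod_cast h7
        push_cast at *
        linarith
      · have : (0 : ℤ) ≤ ((x % q : ℕ) : ℤ) := by positivity
        have : ((z % q : ℕ) : ℤ) < q := by exact_mod_cast h8
        push_cast at *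
        linarith
  rcases lt_or_gt_of_ne hne with h | h
  · exact key m₁ m₂ h hm₂ heq
  · exact key m₂ m₁ h hm₁ heq.symm

/-- a progression on which a set is dense -/
theorem prog {q : ℕ} {V : Type} [AddCommGroup V] [Module (ZMod q) V] [Fintype V] [Nonempty V]
    (A : Finset V) (s : V) (T : ℕ) :
    ∃ x : V, (T : ℝ) * A.card ≤ Fintype.card V *
      (((Icc 1 T).filter (fun t : ℕ => x + (t : ZMod q) • s ∈ A)).card : ℝ) := by
  by_contra hcon
  push Not at hcon
  have h1 : ∑ x : V, (((Icc 1 T).filter (fun t : ℕ => x + (t : ZMod q) • s ∈ A)).card) =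
      T * A.card := by
    simp only [card_filter]
    rw [sum_comm]
    have h2 : ∀ t ∈ Icc 1 T, (∑ x : V, if x + (t : ZMod q) • s ∈ A then 1 else 0) = A.card := by
      intro t _
      rw [← card_filter]
      apply card_bij (fun x _ => x + (t : ZMod q) • s)
      · intro x hx
        exact (mem_filter.mp hx).2
      · intro x _ y _ hxy
        exact add_right_cancel hxy
      · intro y hy
        refine ⟨y - (t : ZMod q) • s, mem_filter.mpr ⟨mem_univ _, ?_⟩, ?_⟩
        · rw [sub_add_cancel]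
          exact hy
        · rw [sub_add_cancel]
    rw [sum_congr rfl h2, sum_const, Nat.card_Icc, smul_eq_mul, Nat.add_sub_cancel]
  have h2 : ∑ x : V, (Fintype.card V : ℝ) *
      (((Icc 1 T).filter (fun t : ℕ => x + (t : ZMod q) • s ∈ A)).card : ℝ) <
      ∑ x : V, (T : ℝ) * A.card := sum_lt_sum_of_nonempty univ_nonempty fun x _ => hcon x
  rw [← mul_sum, sum_const, card_univ, nsmul_eq_mul] at h2
  have h3 : ∑ x : V, (((Icc 1 T).filter (fun t : ℕ => x + (t : ZMod q) • s ∈ A)).card : ℝ) =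
      T * A.card := by exact_mod_cast h1
  rw [h3] at h2
  exact lt_irrefl _ h2

theorem ev_fq (k K N₁ : ℕ) : ∃ X₀ : ℝ, ∀ X : ℝ, X₀ ≤ X → 1 < X ∧ (k : ℝ) < X ∧
    8 * (N₁ + 1) ≤ X ^ (1 / ((k : ℝ) + 1)) ∧ 4 ≤ X ^ (1 / (2 * ((k : ℝ) + 1))) ∧
    (4 * ((k : ℝ) + 1)) ^ 2 ≤ Real.log X ∧ 1 ≤ Real.log (Real.log X) := by
  have h1 : ∀ᶠ X : ℝ in atTop, 8 * ((N₁ : ℝ) + 1) ≤ X ^ (1 / ((k : ℝ) + 1)) :=
    (tendsto_rpow_atTop (by positivity)).eventually_ge_atTop _
  have h2 : ∀ᶠ X : ℝ in atTop, 4 ≤ X ^ (1 / (2 * ((k : ℝ) + 1))) :=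
    (tendsto_rpow_atTop (by positivity)).eventually_ge_atTop _
  obtain ⟨X₀, hX₀⟩ := eventually_atTop.1 ((eventually_gt_atTop (1 : ℝ)).and
    ((eventually_gt_atTop (k : ℝ)).and (h1.and (h2.and
      ((Real.tendsto_log_atTop.eventually_ge_atTop ((4 * ((k : ℝ) + 1)) ^ 2)).and
        ((Real.tendsto_log_atTop.comp Real.tendsto_log_atTop).eventually_ge_atTop 1))))))
  exact ⟨X₀, fun X hX => hX₀ X hX⟩

theorem mainV (k K : ℕ) : ∃ c : ℝ, 0 < c ∧ ∃ q₀ : ℕ, ∀ q : ℕ, q₀ ≤ q → ∀ [Fact q.Prime],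
    ∀ (V : Type) [AddCommGroup V] [Module (ZMod q) V] [Fintype V], ∀ A B : Finset V,
    (Fintype.card V : ℝ) / (Real.log q) ^ K ≤ A.card → (Fintype.card V : ℝ) / (Real.log q) ^ K ≤ B.card →
    ∀ (lam : Fin k → (V →ₗ[ZMod q] ZMod q)) (w : Fin k → ZMod q), (∀ i, lam i ≠ 0) →
    ∃ a ∈ A, ∃ b ∈ B, ∀ i, ∀ p : ℕ, p.Prime → (p : ZMod q) = lam i (a + b) + w i →
      c * (q * (Real.log q * Real.log (Real.log q))) < p := by
  obtain ⟨c, hc, N₁, hmain⟩ := mainP k (2 * K)
  obtain ⟨X₀, hev⟩ := ev_fq k K N₁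
  set κ : ℝ := 2 * ((k : ℝ) + 1) with hκ
  have hκ2 : 2 ≤ κ := by
    rw [hκ]
    have : (0 : ℝ) ≤ k := Nat.cast_nonneg k
    linarith
  refine ⟨c / (2 * κ), by positivity, ⌈X₀⌉₊, ?_⟩
  intro q hq hqf V _ _ _ A B hA hB lam w hlam
  have hqp : q.Prime := Fact.out
  have hqX : X₀ ≤ (q : ℝ) := (Nat.le_ceil _).trans (by exact_mod_cast hq)
  obtain ⟨e1, e2, e3, e4, e5, e6⟩ := hev (q : ℝ) hqX
  set X : ℝ := (q : ℝ) with hX
  have hX0 : 0 < X := by linarith
  have hl0 : 0 < Real.log X := Real.log_pos e1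
  set z : ℝ := X ^ (1 / ((k : ℝ) + 1)) with hz
  have hz8 : 8 ≤ z := by
    have : (0 : ℝ) ≤ N₁ := Nat.cast_nonneg _
    linarith
  have hzX : z ≤ X := by
    calc z ≤ X ^ (1 : ℝ) := by
          apply Real.rpow_le_rpow_of_exponent_le e1.le
          rw [div_le_one (by positivity)]
          have : (0 : ℝ) ≤ k := Nat.cast_nonneg k
          linarith
      _ = X := Real.rpow_one X
  set Q : ℕ := ⌊z⌋₊ with hQ
  have hQz : (Q : ℝ) ≤ z := Nat.floor_le (by linarith)
  have hQz2 : z < Q + 1 := Nat.lt_floor_add_one z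
  have hQ1 : 1 ≤ Q := by
    have : (1 : ℝ) ≤ Q := by linarith
    exact_mod_cast this
  have hQk : Q ^ k < q := by
    have h1 : (Q : ℝ) ^ k ≤ z ^ k := pow_le_pow_left₀ (Nat.cast_nonneg _) hQz k
    have h2 : z ^ k < z ^ (k + 1) := pow_lt_pow_right₀ (by linarith) (by omega)
    have h3 : z ^ (k + 1) = X := by
      rw [hz, ← Real.rpow_natCast, ← Real.rpow_mul hX0.le]
      push_cast
      rw [one_div_mul_cancel (by positivity), Real.rpow_one]
    have h4 : ((Q ^ k : ℕ) : ℝ) < ((q : ℕ) : ℝ) := by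
      push_cast
      linarith
    exact_mod_cast h4
  set T : ℕ := Q / 2 with hT
  have hTQ : 2 * T ≤ Q := by omega
  have hTz : z / 4 ≤ T := by
    have h1 : Q < 2 * T + 2 := by omega
    have h2 : (Q : ℝ) < 2 * T + 2 := by exact_mod_cast h1
    linarith
  have hTN : N₁ ≤ T := by
    have : (N₁ : ℝ) ≤ T := by linarith
    exact_mod_cast this
  have hTq : T ≤ q := by
    have h1 : (T : ℝ) ≤ q := by
      have : ((2 * T : ℕ) : ℝ) ≤ Q := by exact_mod_cast hTQ
      push_cast at this
      linarith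
    exact_mod_cast h1
  have hT0 : (0 : ℝ) < T := by linarith
  set l : ℝ := Real.log T with hl
  -- logarithms
  have hzz : z = X ^ (1 / κ) * X ^ (1 / κ) := by
    rw [← Real.rpow_add hX0, hz, hκ]
    congr 1
    field_simp
    norm_num
  have hTκ : X ^ (1 / κ) ≤ T := by
    have h1 : 0 < X ^ (1 / κ) := Real.rpow_pos_of_pos hX0 _
    nlinarith
  have hlκ : Real.log X / κ ≤ l := by
    have h1 := Real.log_le_log (Real.rpow_pos_of_pos hX0 _) hTκ
    rw [Real.log_rpow hX0] at h1
    rw [hl]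
    calc Real.log X / κ = 1 / κ * Real.log X := by ring
      _ ≤ _ := h1
  have hlX : Real.log X ≤ κ * l := by
    rw [div_le_iff₀ (by positivity)] at hlκ
    linarith
  have hκ2l : (2 * κ) ^ 2 ≤ Real.log X := by
    have : 2 * κ = 4 * ((k : ℝ) + 1) := by rw [hκ]; ring
    rw [this]
    exact e5
  have hκl : κ ≤ l := by
    have h1 : κ * κ ≤ κ * l := by nlinarith
    exact le_of_mul_le_mul_left h1 (by linarith)
  have hlX2 : Real.log X ≤ l ^ 2 := by
    rw [sq]
    refine hlX.trans ?_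
    exact mul_le_mul_of_nonneg_right hκl (by linarith)
  have hl0' : 0 < l := by linarith
  have hVne : Nonempty V := ⟨0⟩
  have hVpos : (0 : ℝ) < Fintype.card V := by exact_mod_cast Fintype.card_pos
  -- the direction
  obtain ⟨v, hv⟩ := good_vec lam univ (fun i _ => hlam i) (by
    rw [card_univ, Fintype.card_fin]
    rw [hX] at e2
    exact_mod_cast e2)
  obtain ⟨m, hm1, hm2, r, hr⟩ := dirichlet k Q hQ1 (fun i => lam i v)
  set s : V := (m : ZMod q) • v with hs
  have hmne : (m : ZMod q) ≠ 0 := by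
    rw [Ne, ZMod.natCast_eq_zero_iff]
    intro hd
    have := Nat.le_of_dvd (by omega) hd
    omega
  have hrs : ∀ i, ((r i : ℤ) : ZMod q) = lam i s := by
    intro i
    rw [hs, map_smul, smul_eq_mul]
    exact (hr i).1
  have hr0 : ∀ i, r i ≠ 0 := by
    intro i h
    have h1 := (hr i).1
    rw [h, Int.cast_zero] at h1
    exact mul_ne_zero hmne (hv i (mem_univ _)) h1.symm
  have hdense : ∀ S : Finset V, (Fintype.card V : ℝ) / (Real.log X) ^ K ≤ S.card →
      ∃ x : V, (T : ℝ) / l ^ (2 * K) ≤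
        (((Icc 1 T).filter (fun t : ℕ => x + (t : ZMod q) • s ∈ S)).card : ℝ) := by
    intro S hS
    obtain ⟨x, hx⟩ := prog (q := q) S s T
    refine ⟨x, ?_⟩
    have h1 : (T : ℝ) / l ^ (2 * K) ≤ T / (Real.log X) ^ K := by
      apply div_le_div_of_nonneg_left hT0.le (by positivity)
      rw [pow_mul]
      exact pow_le_pow_left₀ hl0.le hlX2 K
    refine h1.trans ?_
    have h2 : (Fintype.card V : ℝ) * (T / (Real.log X) ^ K) ≤ Fintype.card V *
        (((Icc 1 T).filter (fun t : ℕ => x + (t : ZMod q) • s ∈ S)).card : ℝ) := by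
      refine le_trans ?_ hx
      calc (Fintype.card V : ℝ) * (T / (Real.log X) ^ K) =
            T * ((Fintype.card V : ℝ) / (Real.log X) ^ K) := by ring
        _ ≤ T * S.card := mul_le_mul_of_nonneg_left hS hT0.le
    exact le_of_mul_le_mul_left h2 hVpos
  obtain ⟨x, hx⟩ := hdense A hA
  obtain ⟨x', hx'⟩ := hdense B hB
  obtain ⟨t, ht, t', ht', hfin⟩ := hmain T hTN _ _ (filter_subset _ _) (filter_subset _ _) hx hx' q
    hqp hTq (by
      rw [← hX]
      calc X = Real.exp (Real.log X) := (Real.exp_log hX0).symm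
        _ ≤ _ := Real.exp_le_exp.mpr hlX2) r
    (fun i => ((lam i (x + x') + w i).val : ℤ))
    (by
      intro i
      refine ⟨hr0 i, ?_, by positivity, ?_⟩
      · refine le_trans ?_ (hr i).2
        apply mul_le_mul_of_nonneg_left _ (abs_nonneg _)
        exact_mod_cast hTQ
      · exact_mod_cast ZMod.val_lt _)
  rw [mem_filter] at ht ht'
  refine ⟨_, ht.2, _, ht'.2, ?_⟩
  intro i p hp hpeq
  have h1 := hfin i p hp (by
    rw [← ZMod.intCast_zmod_eq_zero_iff_dvd]
    push_cast
    rw [ZMod.natCast_zmod_val, hpeq, hrs i]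
    simp only [map_add, map_smul, smul_eq_mul]
    ring)
  refine lt_of_le_of_lt ?_ h1
  -- comparison of the logarithms
  have h2 : Real.log (Real.log X) / 2 ≤ Real.log l := by
    have h3 : Real.log (Real.log X) ≤ Real.log (l ^ 2) := Real.log_le_log hl0 hlX2
    rw [Real.log_pow] at h3
    push_cast at h3
    linarith
  have h4 : c / (2 * κ) * (X * (Real.log X * Real.log (Real.log X))) =
      c * (X * ((Real.log X / κ) * (Real.log (Real.log X) / 2))) := by
    field_simp
  rw [h4]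
  apply mul_le_mul_of_nonneg_left _ hc.le
  apply mul_le_mul_of_nonneg_left _ hX0.le
  exact mul_le_mul hlκ h2 (by linarith) hl0'.le

end Pool.Agent.U642.DU
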