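import Pool.Agent.U642.DU.One

set_option autoImplicit false
set_option linter.unusedVariables false

/-! # Progressions without primes at affine functions of the sum of two dense sets (helper642) -/

namespace Pool.Agent.U642.DU

open Finset Filter Pool.Agent.H256R2.SC Pool.Agent.U642.DS Pool.Agent.U642.DT

open scoped Classical

/-- the affine functions of the progressions -/
noncomputable def winq {k : ℕ} (u w : Fin k → ℤ) (L q : ℕ) : Finset (ℤ × ℤ) :=
  univ.biUnion (fun i : Fin k => (Icc (-(L : ℤ)) L).image (fun h => (u i, w i + h * q)))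

theorem sieve_q (L q : ℕ) (y C : ℝ) (hy : 0 ≤ y) (hq : q.Prime) (hyq : y < q)
    (hC : ∀ s : ℤ, (((Icc (-(L : ℤ)) L).filter (fun h => ∀ p : ℕ, p.Prime → (p : ℝ) ≤ y →
      ¬ (p : ℤ) ∣ s + h)).card : ℝ) ≤ C) (s : ℤ) :
    (((Icc (-(L : ℤ)) L).filter (fun h => ∀ p : ℕ, p.Prime → (p : ℝ) ≤ y →
      ¬ (p : ℤ) ∣ s + h * q)).card : ℝ) ≤ C := by
  set P : ℕ := primorial ⌊y⌋₊ with hP
  have hdP : ∀ p : ℕ, p.Prime → (p : ℝ) ≤ y → p ∣ P := by
    intro p hp hpy
    rw [hP]
    unfold primorial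
    apply dvd_prod_of_mem (fun p => p)
    rw [mem_filter, mem_range]
    have := Nat.le_floor hpy
    exact ⟨by omega, hp⟩
  have hcop : IsCoprime (P : ℤ) (q : ℤ) := by
    rw [Nat.isCoprime_iff_coprime]
    apply Nat.Coprime.symm
    rw [Nat.Prime.coprime_iff_not_dvd hq]
    intro hd
    rw [hP] at hd
    unfold primorial at hd
    obtain ⟨t, ht, htd⟩ := (Prime.dvd_finsetProd_iff hq.prime _).mp hd
    rw [mem_filter, mem_range] at ht
    have h1 := (Nat.prime_dvd_prime_iff_eq hq ht.2).mp htd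
    have h2 : t ≤ ⌊y⌋₊ := by omega
    have h3 := (Nat.le_floor_iff hy).mp h2
    rw [← h1] at h3
    linarith
  obtain ⟨x, z, hxz⟩ := hcop
  refine le_trans (Nat.cast_le.mpr (card_le_card ?_)) (hC (s * z))
  intro h hh
  rw [mem_filter] at hh ⊢
  refine ⟨hh.1, ?_⟩
  intro p hp hpy hd
  apply hh.2 p hp hpy
  have h1 : (p : ℤ) ∣ (P : ℤ) := by exact_mod_cast hdP p hp hpy
  have h2 : s + h * q = q * (s * z + h) + P * (x * s) := by
    linear_combination (-s) * hxz
  rw [h2]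
  exact dvd_add (Dvd.dvd.mul_left hd _) (Dvd.dvd.mul_right h1 _)

theorem winq_count {k : ℕ} (u w : Fin k → ℤ) (L q : ℕ) (y C : ℝ) (m : ℤ)
    (hC : ∀ s : ℤ, (((Icc (-(L : ℤ)) L).filter (fun h => ∀ p : ℕ, p.Prime → (p : ℝ) ≤ y →
      ¬ (p : ℤ) ∣ s + h * q)).card : ℝ) ≤ C) : ((UG y (winq u w L q) m).card : ℝ) ≤ k * C := by
  have h1 : UG y (winq u w L q) m ⊆ univ.biUnion (fun i : Fin k =>
      ((Icc (-(L : ℤ)) L).filter (fun h => ∀ p : ℕ, p.Prime → (p : ℝ) ≤ y →
        ¬ (p : ℤ) ∣ (u i * m + w i) + h * q)).image (fun h => (u i, w i + h * q))) := by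
    intro x hx
    unfold UG winq at hx
    rw [mem_filter, mem_biUnion] at hx
    obtain ⟨⟨i, hi, hxi⟩, h2⟩ := hx
    obtain ⟨h, hh, rfl⟩ := mem_image.mp hxi
    rw [mem_biUnion]
    refine ⟨i, hi, mem_image.mpr ⟨h, mem_filter.mpr ⟨hh, ?_⟩, rfl⟩⟩
    intro p hp hpy hd
    apply h2 p hp hpy
    simp only
    rwa [← add_assoc]
  refine (Nat.cast_le.mpr ((card_le_card h1).trans card_biUnion_le)).trans ?_
  push_cast
  have h3 : (k : ℝ) * C = ∑ i : Fin k, C := by
    rw [sum_const, card_univ, Fintype.card_fin, nsmul_eq_mul]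
  rw [h3]
  apply sum_le_sum
  intro i _
  refine (Nat.cast_le.mpr card_image_le).trans (hC _)

theorem ev_prog (K k : ℕ) : ∃ X₀ : ℝ, ∀ X : ℝ, X₀ ≤ X →
    (2 : ℝ) ^ (3 * k) ≤ Real.log X / 4 ∧ X ^ (1 / 200 : ℝ) + 1 ≤ X := by
  have h1 : ∀ᶠ X : ℝ in atTop, X ^ (1 / 200 : ℝ) + 1 ≤ X := by
    have h2 : ∀ᶠ X : ℝ in atTop, 2 ≤ X ^ (1 / 2 : ℝ) :=
      (tendsto_rpow_atTop (by norm_num)).eventually_ge_atTop _
    filter_upwards [h2, eventually_gt_atTop (1 : ℝ)] with X hX hX1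
    have h3 : X ^ (1 / 200 : ℝ) ≤ X ^ (1 / 2 : ℝ) :=
      Real.rpow_le_rpow_of_exponent_le hX1.le (by norm_num)
    have h4 : X ^ (1 / 2 : ℝ) * X ^ (1 / 2 : ℝ) = X := by
      rw [← Real.rpow_add (by linarith)]
      norm_num
    nlinarith
  obtain ⟨X₀, hX₀⟩ := eventually_atTop.1
    ((Real.tendsto_log_atTop.eventually_ge_atTop (4 * (2 : ℝ) ^ (3 * k))).and h1)
  exact ⟨X₀, fun X hX => ⟨by linarith [(hX₀ X hX).1], (hX₀ X hX).2⟩⟩

/-- least primes in the classes of `k` affine functions of `a + b` on short ranges -/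
theorem mainP (k K : ℕ) : ∃ c : ℝ, 0 < c ∧ ∃ N₀ : ℕ, ∀ N : ℕ, N₀ ≤ N →
    ∀ A B : Finset ℕ, A ⊆ Icc 1 N → B ⊆ Icc 1 N → (N : ℝ) / (Real.log N) ^ K ≤ A.card →
    (N : ℝ) / (Real.log N) ^ K ≤ B.card → ∀ q : ℕ, q.Prime → N ≤ q →
    (q : ℝ) ≤ Real.exp ((Real.log N) ^ 2) → ∀ u w : Fin k → ℤ,
    (∀ i, u i ≠ 0 ∧ |u i| * (2 * N) ≤ q ∧ 0 ≤ w i ∧ w i < q) →
    ∃ a ∈ A, ∃ b ∈ B, ∀ i, ∀ p : ℕ, p.Prime → (q : ℤ) ∣ (p : ℤ) - (u i * (a + b) + w i) →
      c * (q * (Real.log N * Real.log (Real.log N))) < p := by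
  obtain ⟨c₀, hc₀, N₁, hsoft⟩ := softG (K + 4)
  obtain ⟨y₀, hsieve⟩ := int_sieve
  obtain ⟨X₁, hev⟩ := ev_one (K + 2) y₀
  obtain ⟨X₂, hev2⟩ := ev_soft 50
  obtain ⟨X₃, hev3⟩ := ev_prog K k
  set c : ℝ := min (1 / 4) (c₀ / (200 * (k + 1))) with hc
  have hc0 : 0 < c := lt_min (by norm_num) (by positivity)
  have hc4 : c ≤ 1 / 4 := min_le_left _ _
  have hcc : c ≤ c₀ / (200 * (k + 1)) := min_le_right _ _
  obtain ⟨X₄, hev4⟩ : ∃ X₄ : ℝ, ∀ X : ℝ, X₄ ≤ X → 1 / c ≤ Real.log (Real.log X) := by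
    exact eventually_atTop.1
      ((Real.tendsto_log_atTop.comp Real.tendsto_log_atTop).eventually_ge_atTop (1 / c))
  refine ⟨c / 4, by positivity, max N₁ ⌈max (max X₁ X₂) (max X₃ X₄)⌉₊, ?_⟩
  intro N hN A B hA hB hAc hBc q hqp hNq hqexp u w huw
  have hN1 : N₁ ≤ N := (le_max_left _ _).trans hN
  have hNX : max (max X₁ X₂) (max X₃ X₄) ≤ (N : ℝ) :=
    (Nat.le_ceil _).trans (by exact_mod_cast (le_max_right _ _).trans hN)
  set X : ℝ := (N : ℝ) with hX
  obtain ⟨e0, e1, e2, e3, e4, e5, e6, e7, e8⟩ :=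
    hev X (((le_max_left _ _).trans (le_max_left _ _)).trans hNX)
  obtain ⟨_, _, _, _, _, e9, _⟩ := hev2 X (((le_max_right _ _).trans (le_max_left _ _)).trans hNX)
  obtain ⟨e10, e11⟩ := hev3 X (((le_max_left _ _).trans (le_max_right _ _)).trans hNX)
  have e12 := hev4 X (((le_max_right _ _).trans (le_max_right _ _)).trans hNX)
  set l : ℝ := Real.log X with hl
  set ll : ℝ := Real.log l with hll
  have hX0 : 0 < X := by linarith
  have hl0 : 0 < l := by linarith
  have hll0 : 0 < ll := by linarith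
  have hqR : (0 : ℝ) < q := by exact_mod_cast hqp.pos
  have hXq : X ≤ q := by
    rw [hX]
    exact_mod_cast hNq
  set H : ℝ := c * (l * ll) with hH
  have hHl : l ≤ H := by
    rw [div_le_iff₀ hc0] at e12
    calc l = l * 1 := (mul_one l).symm
      _ ≤ l * (ll * c) := mul_le_mul_of_nonneg_left e12 hl0.le
      _ = H := by rw [hH]; ring
  set L : ℕ := ⌈H⌉₊ with hL
  have hLH : H ≤ L := Nat.le_ceil _
  have hLH2 : (L : ℝ) ≤ 2 * H := by
    have := Nat.ceil_lt_add_one (show 0 ≤ H by linarith)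
    rw [hL]
    linarith
  have hLl2 : (L : ℝ) ≤ l ^ 2 := by
    have h2 : c * (l * ll) ≤ 1 / 4 * (l * l) := by
      apply mul_le_mul hc4 _ (by positivity) (by norm_num)
      exact mul_le_mul_of_nonneg_left (by linarith) hl0.le
    nlinarith
  have hyL : l / 10 ≤ L := by linarith
  have hyq : l / 10 < q := by
    have : l ≤ X - 1 := Real.log_le_sub_one_of_pos hX0
    linarith
  -- separation
  set g : ℕ := ⌈X ^ (1 / 200 : ℝ)⌉₊ with hg
  have hg1 : X ^ (1 / 200 : ℝ) ≤ g := Nat.le_ceil _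
  have hg2 : (g : ℝ) < X ^ (1 / 200 : ℝ) + 1 := Nat.ceil_lt_add_one (Real.rpow_nonneg hX0.le _)
  obtain ⟨A', hA', B', hB', hAA, hBB, hsep⟩ := splitS (univ : Finset (Fin k × Fin 3))
    (fun i => u i.1) (fun i => u i.1) (fun i => w i.1 - ((i.2 : ℕ) - 1 : ℤ) * q)
    (fun i => (huw i.1).1) (fun i => (huw i.1).1) g A B
  rw [card_univ, Fintype.card_prod, Fintype.card_fin, Fintype.card_fin, mul_comm k 3] at hAA hBB
  have hlK : 0 < l ^ (K + 2) := by positivity
  have hdens : ∀ T : ℝ, X / l ^ K ≤ 2 ^ (3 * k) * (T + 2 * g) → X / l ^ (K + 4) ≤ T := by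
    intro T hT
    have hX2 : X / l ^ (K + 2) ≤ X / l ^ K :=
      div_le_div_of_nonneg_left hX0.le (by positivity)
        (pow_le_pow_right₀ (by linarith) (by omega))
    have h0 : 0 ≤ T + 2 * g := by
      by_contra hcon
      push Not at hcon
      have h1 : (2 : ℝ) ^ (3 * k) * (T + 2 * g) < 0 := mul_neg_of_pos_of_neg (by positivity) hcon
      have h2 : 0 < X / l ^ K := by positivity
      linarith
    have h2 : (2 : ℝ) ^ (3 * k) * (T + 2 * g) ≤ l / 4 * (T + 2 * g) :=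
      mul_le_mul_of_nonneg_right e10 h0
    have h3 : l / 4 * (2 * (g : ℝ)) ≤ X / l ^ (K + 2) / 4 := by
      have : l / 4 * (2 * (g : ℝ)) ≤ l * (X ^ (1 / 200 : ℝ) + 1) := by nlinarith
      linarith
    have h4 : X / l ^ (K + 2) / 2 ≤ l / 4 * T := by nlinarith
    have h5 : X / l ^ (K + 4) ≤ X / l ^ (K + 2) / 2 * (4 / l) := by
      have h6 : X / l ^ (K + 2) / 2 * (4 / l) = X / (l ^ (K + 2) * (l / 2)) := by
        field_simp
        ring
      rw [h6]
      apply div_le_div_of_nonneg_left hX0.le (by positivity)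
      rw [show K + 4 = K + 2 + 2 by ring, pow_add l (K + 2) 2]
      apply mul_le_mul_of_nonneg_left _ hlK.le
      nlinarith
    refine h5.trans ?_
    calc X / l ^ (K + 2) / 2 * (4 / l) ≤ l / 4 * T * (4 / l) :=
          mul_le_mul_of_nonneg_right h4 (by positivity)
      _ = T := by field_simp
  have hA'c : X / l ^ (K + 4) ≤ A'.card := by
    apply hdens
    refine hAc.trans ?_
    exact_mod_cast hAA
  have hB'c : X / l ^ (K + 4) ≤ B'.card := by
    apply hdens
    refine hBc.trans ?_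
    have h1 : (B.card : ℝ) ≤ 2 ^ (3 * k) * B'.card := by exact_mod_cast hBB
    have h2 : (0 : ℝ) ≤ 2 ^ (3 * k) * (2 * g) := by positivity
    linarith
  set P : ℕ := primorial ⌊l / 10⌋₊ with hP
  have hP0 : 0 < P := primorial_pos _
  obtain ⟨r, hr⟩ := dense_class A' P hP0 (l ^ (K + 4)) X (by positivity) hX0 hA'c
  obtain ⟨r', hr'⟩ := dense_class B' P hP0 (l ^ (K + 4)) X (by positivity) hX0 hB'c
  have hq2 : (q : ℝ) ≤ Real.exp (l ^ (K + 2)) := by
    refine hqexp.trans (Real.exp_le_exp.mpr ?_)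
    exact pow_le_pow_right₀ (by linarith) (by omega)
  have he1 : (1 : ℝ) ≤ Real.exp (l ^ (K + 4)) := Real.one_le_exp (by positivity)
  have hexpK : Real.exp (l ^ (K + 2)) ≤ Real.exp (l ^ (K + 4)) := by
    apply Real.exp_le_exp.mpr
    exact pow_le_pow_right₀ (by linarith) (by omega)
  have hq3 : (q : ℝ) * (1 + l ^ 2) ≤ Real.exp (l ^ (K + 4)) := by
    have h1 : 1 + l ^ 2 ≤ Real.exp (l ^ (K + 2)) := by
      have h2 : l ^ 2 ≤ l ^ (K + 2) := pow_le_pow_right₀ (by linarith) (by omega)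
      have h3 := Real.add_one_le_exp (l ^ (K + 2))
      linarith
    calc (q : ℝ) * (1 + l ^ 2) ≤ Real.exp (l ^ (K + 2)) * Real.exp (l ^ (K + 2)) :=
          mul_le_mul hq2 h1 (by positivity) (Real.exp_pos _).le
      _ = Real.exp (l ^ (K + 2) + l ^ (K + 2)) := (Real.exp_add _ _).symm
      _ ≤ Real.exp (l ^ (K + 4)) := by
          apply Real.exp_le_exp.mpr
          rw [show K + 4 = K + 2 + 2 by ring, pow_add l (K + 2) 2]
          have : (2 : ℝ) ≤ l ^ 2 := by nlinarith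
          nlinarith
  obtain ⟨a, ha, b, hb, hfin⟩ := hsoft N hN1 1 1 one_ne_zero one_ne_zero
    (by simpa using he1) (by simpa using he1) (winq u w L q)
    (by
      intro x hx
      unfold winq at hx
      rw [mem_biUnion] at hx
      obtain ⟨i, _, hxi⟩ := hx
      obtain ⟨h, hh, rfl⟩ := mem_image.mp hxi
      rw [mem_Icc] at hh
      refine ⟨(huw i).1, ?_, ?_⟩
      · have h1 := (huw i).2.1
        have h2 : |u i| ≤ q := by
          have h3 : (0 : ℤ) ≤ |u i| := abs_nonneg _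
          have h4 : (1 : ℤ) ≤ N := by
            have : (1 : ℝ) ≤ N := e0.le
            exact_mod_cast this
          nlinarith
        have h3 : ((|u i| : ℤ) : ℝ) ≤ ((q : ℤ) : ℝ) := by exact_mod_cast h2
        rw [Int.cast_abs, Int.cast_natCast] at h3
        linarith
      · simp only
        push_cast
        refine (abs_add_le _ _).trans ?_
        have h1 : |(h : ℝ)| ≤ L := by
          rw [abs_le]
          exact ⟨by exact_mod_cast hh.1, by exact_mod_cast hh.2⟩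
        have h2 : |(w i : ℝ)| ≤ q := by
          rw [abs_of_nonneg (by exact_mod_cast (huw i).2.2.1)]
          exact_mod_cast (huw i).2.2.2.le
        have h3 : |(h : ℝ) * q| ≤ l ^ 2 * q := by
          rw [abs_mul, abs_of_pos hqR]
          exact mul_le_mul_of_nonneg_right (h1.trans hLl2) hqR.le
        calc |(w i : ℝ)| + |(h : ℝ) * q| ≤ q + l ^ 2 * q := add_le_add h2 h3
          _ = q * (1 + l ^ 2) := by ring
          _ ≤ _ := hq3) A' B' (hA'.trans hA) (hB'.trans hB) P rfl r r' hr hr'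
    (by
      have h0 := fun s => sieve_q L q (l / 10) (50 * L / Real.log (l / 10)) (by positivity) hqp hyq
        (fun s => hsieve (l / 10) e4 L hyL s) s
      have h1 := winq_count u w L q (l / 10) (50 * L / Real.log (l / 10)) (1 * r + 1 * r') h0
      refine h1.trans ?_
      have h2 : 0 < Real.log (l / 10) := Real.log_pos e5
      have hkk : (k : ℝ) ≤ k + 1 := by linarith
      rw [← mul_div_assoc, div_le_iff₀ h2]
      calc (k : ℝ) * (50 * L) ≤ (k + 1) * (50 * (2 * H)) := by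
            apply mul_le_mul hkk (by linarith) (by positivity) (by positivity)
        _ = 100 * (k + 1) * (c * (l * ll)) := by rw [hH]; ring
        _ ≤ 100 * (k + 1) * (c₀ / (200 * (k + 1)) * (l * ll)) := by
            apply mul_le_mul_of_nonneg_left _ (by positivity)
            exact mul_le_mul_of_nonneg_right hcc (by positivity)
        _ = c₀ * l * (ll / 2) := by
            field_simp
            ring
        _ ≤ c₀ * l * Real.log (l / 10) := mul_le_mul_of_nonneg_left e3 (by positivity))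
  refine ⟨a, hA' ha, b, hB' hb, ?_⟩
  intro i p hp hpd
  by_contra hcon
  push Not at hcon
  obtain ⟨j, hj⟩ := hpd
  obtain ⟨hu0, hu1, hw0, hw1⟩ := huw i
  have haN := (mem_Icc.mp (hA (hA' ha)))
  have hbN := (mem_Icc.mp (hB (hB' hb)))
  set n : ℤ := u i * ((a : ℤ) + b) + w i with hn
  have hab : |u i * ((a : ℤ) + b)| ≤ q := by
    rw [abs_mul]
    refine le_trans ?_ hu1
    apply mul_le_mul_of_nonneg_left _ (abs_nonneg _)
    rw [abs_of_nonneg (by positivity)]
    have h1 : (a : ℤ) ≤ N := by exact_mod_cast haN.2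
    have h2 : (b : ℤ) ≤ N := by exact_mod_cast hbN.2
    linarith
  have hab2 := abs_le.mp hab
  have hn1 : -(q : ℤ) ≤ n := by rw [hn]; linarith
  have hn2 : n < 2 * q := by rw [hn]; linarith
  have hpn : (p : ℤ) = n + j * q := by linarith
  have hnR1 : -(q : ℝ) ≤ n := by exact_mod_cast hn1
  have hnR2 : (n : ℝ) ≤ 2 * q := by exact_mod_cast hn2.le
  have hpnR : (p : ℝ) = n + j * q := by exact_mod_cast hpn
  have hjL : |(j : ℝ)| ≤ L := by
    have h0 : 0 ≤ (p : ℝ) := Nat.cast_nonneg _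
    have h1 : |(j : ℝ)| * q ≤ (L : ℝ) * q := by
      rw [← abs_of_pos hqR, ← abs_mul, abs_of_pos hqR]
      have h2 : (j : ℝ) * q = p - n := by linarith
      rw [h2, abs_le]
      have h3 : c / 4 * (q * (l * ll)) = H / 4 * q := by rw [hH]; ring
      rw [h3] at hcon
      have h4 : (100 : ℝ) ≤ H := by linarith
      have h5 : H * q ≤ L * q := mul_le_mul_of_nonneg_right hLH hqR.le
      have h6 : 100 * (q : ℝ) ≤ H * q := mul_le_mul_of_nonneg_right h4 hqR.le
      constructor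
      · linarith
      · linarith
    exact le_of_mul_le_mul_right h1 hqR
  obtain ⟨π, hπ, hπz, hπd⟩ := hfin (u i, w i + j * q) (by
    unfold winq
    rw [mem_biUnion]
    refine ⟨i, mem_univ _, mem_image.mpr ⟨j, ?_, rfl⟩⟩
    rw [mem_Icc]
    have h1 := abs_le.mp hjL
    exact ⟨by exact_mod_cast h1.1, by exact_mod_cast h1.2⟩)
  simp only at hπd
  have h3 : u i * (1 * (a : ℤ) + 1 * b) + (w i + j * q) = p := by
    rw [hpn, hn]
    ring
  rw [h3] at hπd
  have h5 : π = p := (Nat.prime_dvd_prime_iff_eq hπ hp).mp (by exact_mod_cast hπd)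
  have h7 : (p : ℝ) ≤ X ^ (1 / 10000 : ℝ) := by rw [← h5]; exact hπz
  -- the prime is small, so that j is -1, 0 or 1
  have hpg : (p : ℝ) < g := by
    have h8 : X ^ (1 / 10000 : ℝ) < X ^ (1 / 200 : ℝ) :=
      Real.rpow_lt_rpow_of_exponent_lt e0 (by norm_num)
    linarith
  have hpgZ : (p : ℤ) < g := by exact_mod_cast hpg
  have hgq : (g : ℤ) ≤ q := by
    have h8 : (g : ℝ) ≤ q := by linarith
    exact_mod_cast h8
  have hqZ : (0 : ℤ) < q := by exact_mod_cast hqp.pos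
  have hj1 : -2 < j := by
    by_contra h
    push Not at h
    have h9 : j * (q : ℤ) ≤ -2 * q := mul_le_mul_of_nonneg_right h hqZ.le
    have h10 : (0 : ℤ) ≤ p := by positivity
    linarith
  have hj2 : j < 2 := by
    by_contra h
    push Not at h
    have h9 : 2 * (q : ℤ) ≤ j * q := mul_le_mul_of_nonneg_right h hqZ.le
    linarith
  have hsepj : ∀ e : Fin 3, ((e : ℕ) : ℤ) - 1 = -j → False := by
    intro e he
    have h9 := hsep (i, e) (mem_univ _) a ha b hb
    simp only at h9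
    rw [he] at h9
    have h10 : u i * (a : ℤ) + u i * b + (w i - -j * q) = p := by
      rw [hpn, hn]
      ring
    rw [h10, Nat.abs_cast] at h9
    linarith
  have hj3 : j = -1 ∨ j = 0 ∨ j = 1 := by omega
  rcases hj3 with h | h | h
  · exact hsepj 2 (by rw [h]; norm_num)
  · exact hsepj 1 (by rw [h]; norm_num)
  · exact hsepj 0 (by rw [h]; norm_num)

end Pool.Agent.U642.DU
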