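import Pool.Agent.U642.DU.CovE
import Pool.Agent.U642.DT.SoftS

set_option autoImplicit false
set_option linter.unusedVariables false

/-! # Composite values of many affine functions at a linear form of two dense sets (helper642) -/

namespace Pool.Agent.U642.DU

open Finset Filter Pool.Agent.H256R2.SC Pool.Agent.U642.DS Pool.Agent.U642.DT

open scoped Classical

/-- the affine functions `e x + c` whose value at `m` has no prime factor up to `y` -/
noncomputable def UG (y : ℝ) (Λ : Finset (ℤ × ℤ)) (m : ℤ) : Finset (ℤ × ℤ) :=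
  Λ.filter (fun k => ∀ p : ℕ, p.Prime → (p : ℝ) ≤ y → ¬ (p : ℤ) ∣ k.1 * m + k.2)

theorem nz_exists (k : ℤ × ℤ) : ∃ n : ℕ × ℤ, k.1 ≠ 0 → (1 ≤ n.1 ∧ IsCoprime (n.1 : ℤ) n.2 ∧
    ∃ t : ℤ, 1 ≤ |t| ∧ k.1 = t * n.1 ∧ k.2 = t * n.2) := by
  by_cases hk : k.1 = 0
  · exact ⟨(1, 0), fun h => absurd hk h⟩
  have hg : 0 < Int.gcd k.1 k.2 := Int.gcd_pos_of_ne_zero_left _ hk
  obtain ⟨m', n', hc, h1, h2⟩ := Int.exists_gcd_one hg
  have hgZ : (1 : ℤ) ≤ (Int.gcd k.1 k.2 : ℤ) := by exact_mod_cast hg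
  have hm' : m' ≠ 0 := by
    rintro rfl
    rw [zero_mul] at h1
    exact hk h1
  have hcop : IsCoprime m' n' := Int.isCoprime_iff_gcd_eq_one.mpr hc
  rcases lt_or_gt_of_ne hm' with h | h
  · refine ⟨(m'.natAbs, -n'), fun _ => ⟨?_, ?_, -(Int.gcd k.1 k.2 : ℤ), ?_, ?_, ?_⟩⟩
    · simp only
      omega
    · simp only
      have e : ((m'.natAbs : ℕ) : ℤ) = -m' := by omega
      rw [e]
      exact hcop.neg_neg
    · rw [abs_neg]
      exact hgZ.trans (le_abs_self _)
    · simp only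
      have e : ((m'.natAbs : ℕ) : ℤ) = -m' := by omega
      rw [e]
      linarith
    · simp only
      linarith
  · refine ⟨(m'.natAbs, n'), fun _ => ⟨?_, ?_, (Int.gcd k.1 k.2 : ℤ), ?_, ?_, ?_⟩⟩
    · simp only
      omega
    · simp only
      have e : ((m'.natAbs : ℕ) : ℤ) = m' := by omega
      rw [e]
      exact hcop
    · exact hgZ.trans (le_abs_self _)
    · simp only
      have e : ((m'.natAbs : ℕ) : ℤ) = m' := by omega
      rw [e]
      linarith
    · simp only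
      linarith

theorem col_eq {k l : ℕ × ℤ} (hk : 1 ≤ k.1 ∧ IsCoprime (k.1 : ℤ) k.2)
    (hl : 1 ≤ l.1 ∧ IsCoprime (l.1 : ℤ) l.2) (h1 : (k.1 : ℤ) * l.2 - l.1 * k.2 = 0) : k = l := by
  obtain ⟨a1, a4⟩ := hk
  obtain ⟨b1, b4⟩ := hl
  have h2 : (k.1 : ℤ) * l.2 = l.1 * k.2 := by linarith
  have h3 : (k.1 : ℤ) ∣ l.1 := by
    have : (k.1 : ℤ) ∣ l.1 * k.2 := ⟨l.2, h2.symm⟩
    exact a4.dvd_of_dvd_mul_right this
  have h4 : (l.1 : ℤ) ∣ k.1 := by
    have : (l.1 : ℤ) ∣ k.1 * l.2 := ⟨k.2, h2⟩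
    exact b4.dvd_of_dvd_mul_right this
  have h5 : k.1 = l.1 := Nat.dvd_antisymm (by exact_mod_cast h3) (by exact_mod_cast h4)
  have h6 : k.2 = l.2 := by
    rw [h5] at h2
    have : (l.1 : ℤ) ≠ 0 := by
      have : 0 < l.1 := by omega
      exact_mod_cast this.ne'
    exact (mul_left_cancel₀ this h2).symm
  exact Prod.ext h5 h6

/-- number of prime factors -/
theorem omega_le (n : ℤ) (W : ℝ) (hW : 1 ≤ W) (hn : |(n : ℝ)| ≤ 2 * Real.exp (2 * W)) :
    ((n.natAbs.primeFactors.card : ℕ) : ℝ) ≤ 6 * W := by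
  rcases eq_or_ne n 0 with rfl | hn0
  · simp
    linarith
  have h0 : 0 < n.natAbs := Int.natAbs_pos.mpr hn0
  have h1 : 2 ^ n.natAbs.primeFactors.card ≤ n.natAbs := by
    calc 2 ^ n.natAbs.primeFactors.card = ∏ p ∈ n.natAbs.primeFactors, 2 := by
          rw [prod_const]
      _ ≤ ∏ p ∈ n.natAbs.primeFactors, p :=
          prod_le_prod (fun _ _ => by norm_num) fun p hp => (Nat.prime_of_mem_primeFactors hp).two_le
      _ ≤ n.natAbs := Nat.le_of_dvd h0 (Nat.prod_primeFactors_dvd _)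
  have h2 : ((2 ^ n.natAbs.primeFactors.card : ℕ) : ℝ) ≤ 2 * Real.exp (2 * W) := by
    refine le_trans (Nat.cast_le.mpr h1) ?_
    rw [Nat.cast_natAbs, Int.cast_abs]
    exact hn
  push_cast at h2
  have h3 := Real.log_le_log (by positivity) h2
  rw [Real.log_pow, Real.log_mul (by norm_num) (Real.exp_pos _).ne', Real.log_exp] at h3
  have h4 := Real.log_two_gt_d9
  have h5 := Real.log_two_lt_d9
  have h6 : (0 : ℝ) ≤ (n.natAbs.primeFactors.card : ℕ) := Nat.cast_nonneg _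
  nlinarith

theorem softG (K : ℕ) : ∃ c : ℝ, 0 < c ∧ ∃ N₀ : ℕ, ∀ N : ℕ, N₀ ≤ N →
    ∀ α β : ℤ, α ≠ 0 → β ≠ 0 → |(α : ℝ)| ≤ Real.exp ((Real.log N) ^ K) →
    |(β : ℝ)| ≤ Real.exp ((Real.log N) ^ K) →
    ∀ Λ : Finset (ℤ × ℤ), (∀ k ∈ Λ, k.1 ≠ 0 ∧ |(k.1 : ℝ)| ≤ Real.exp ((Real.log N) ^ K) ∧
      |(k.2 : ℝ)| ≤ Real.exp ((Real.log N) ^ K)) →
    ∀ (A B : Finset ℕ), A ⊆ Icc 1 N → B ⊆ Icc 1 N →
    ∀ (q : ℕ), q = primorial ⌊Real.log N / 10⌋₊ → ∀ r r' : ℕ,
    (N : ℝ) / (q * (Real.log N) ^ K) ≤ (A.filter (fun a => a % q = r)).card →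
    (N : ℝ) / (q * (Real.log N) ^ K) ≤ (B.filter (fun a => a % q = r')).card →
    ((UG (Real.log N / 10) Λ (α * r + β * r')).card : ℝ) ≤ c * Real.log N →
    ∃ a ∈ A, ∃ b ∈ B, ∀ k ∈ Λ, ∃ p : ℕ, p.Prime ∧ (p : ℝ) ≤ (N : ℝ) ^ (1 / 10000 : ℝ) ∧
      (p : ℤ) ∣ k.1 * (α * a + β * b) + k.2 := by
  obtain ⟨c, hc, X₁, hcov⟩ := coverE (K + 8)
  obtain ⟨X₂, hev⟩ := ev_soft 50
  refine ⟨min c 1, by positivity, ⌈max X₁ X₂⌉₊, ?_⟩
  intro N hN α β hα hβ hαW hβW Λ hΛ A B hA hB q hq r r' hAr hBr hU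
  have hNX : max X₁ X₂ ≤ (N : ℝ) := (Nat.le_ceil _).trans (by exact_mod_cast hN)
  set X : ℝ := (N : ℝ) with hX
  obtain ⟨e1, e2, e3, e4, e5, e6, e7⟩ := hev X ((le_max_right _ _).trans hNX)
  push_cast at e3 e4
  have hX0 : 0 < X := by linarith
  have hl0 : 0 < Real.log X := by linarith
  set l : ℝ := Real.log X with hl
  have hl100 : 100 < l := by linarith
  set W : ℝ := l ^ K with hW
  have hW1 : 1 ≤ W := one_le_pow₀ (by linarith)
  have hqX : (q : ℝ) ≤ X ^ (1 / 5 : ℝ) := by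
    rw [hq]
    refine (primorial_le_rpow e1.le).trans ?_
    exact Real.rpow_le_rpow_of_exponent_le e1.le (by norm_num)
  have hq0 : 0 < q := by
    rw [hq]
    exact primorial_pos _
  have hqR : (0 : ℝ) < q := by exact_mod_cast hq0
  have hdq : ∀ p : ℕ, p.Prime → (p : ℝ) ≤ l / 10 → p ∣ q := by
    intro p hp hpy
    rw [hq]
    unfold primorial
    apply dvd_prod_of_mem (fun p => p)
    rw [mem_filter, mem_range]
    have := Nat.le_floor hpy
    exact ⟨by omega, hp⟩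
  have hqd : ∀ p : ℕ, p.Prime → p ∣ q → (p : ℝ) ≤ l / 10 := by
    intro p hp hd
    rw [hq] at hd
    unfold primorial at hd
    obtain ⟨s, hs, hsd⟩ := (Prime.dvd_finsetProd_iff hp.prime _).mp hd
    rw [mem_filter, mem_range] at hs
    rw [(Nat.prime_dvd_prime_iff_eq hp hs.2).mp hsd]
    have : s ≤ ⌊l / 10⌋₊ := by omega
    exact (Nat.le_floor_iff (by positivity)).mp this
  set M : ℕ := N / q + 1 with hM
  have hNq : X ^ (4 / 5 : ℝ) ≤ X / q := by
    rw [le_div_iff₀ hqR]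
    calc X ^ (4 / 5 : ℝ) * q ≤ X ^ (4 / 5 : ℝ) * X ^ (1 / 5 : ℝ) :=
          mul_le_mul_of_nonneg_left hqX (Real.rpow_nonneg hX0.le _)
      _ = X := by rw [← Real.rpow_add hX0]; norm_num
  have hNq1 : 1 ≤ X / q := le_trans (Real.one_le_rpow e1.le (by norm_num)) hNq
  have hM1 : X / q ≤ M := by
    rw [div_le_iff₀ hqR, hM]
    have h := Nat.lt_mul_div_succ N hq0
    have h' : (N : ℝ) < ((q * (N / q + 1) : ℕ) : ℝ) := by exact_mod_cast h
    rw [Nat.cast_mul] at h'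
    rw [mul_comm]
    exact h'.le
  have hM2 : (M : ℝ) ≤ 2 * (X / q) := by
    rw [hM]
    push_cast
    have : ((N / q : ℕ) : ℝ) ≤ (N : ℝ) / q := Nat.cast_div_le
    linarith
  have hMhalf : X ^ (1 / 2 : ℝ) ≤ M := by
    refine le_trans ?_ (hNq.trans hM1)
    exact Real.rpow_le_rpow_of_exponent_le e1.le (by norm_num)
  have hMd : (M : ℝ) / l ^ (K + 8) ≤ X / (q * l ^ K) := by
    have h1 : (M : ℝ) / l ^ (K + 8) ≤ 2 * (X / q) / l ^ (K + 8) :=
      div_le_div_of_nonneg_right hM2 (by positivity)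
    refine h1.trans ?_
    rw [pow_add]
    have h2 : 2 * (X / q) / (l ^ K * l ^ 8) = (X / (q * l ^ K)) * (2 / l ^ 8) := by
      field_simp
    rw [h2]
    have h3 : 2 / l ^ 8 ≤ 1 := by
      rw [div_le_one (by positivity)]
      calc (2 : ℝ) ≤ l := by linarith
        _ = l ^ 1 := (pow_one l).symm
        _ ≤ l ^ 8 := pow_le_pow_right₀ (by linarith) (by norm_num)
    have h4 : 0 ≤ X / (q * l ^ K) := by positivity
    nlinarith
  have hbq : ∀ b ∈ B, b / q + 1 ≤ M := by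
    intro b hb
    have h1 := (mem_Icc.mp (hB hb)).2
    rw [hM]
    exact Nat.add_le_add_right (Nat.div_le_div_right h1) 1
  have hT1 : (A.filter (fun a => a % q = r)).image (fun a => a / q + 1) ⊆ Icc 1 M := by
    intro t ht
    obtain ⟨a, ha, rfl⟩ := mem_image.mp ht
    rw [mem_filter] at ha
    have h1 := (mem_Icc.mp (hA ha.1)).2
    rw [mem_Icc, hM]
    exact ⟨Nat.le_add_left 1 _, Nat.add_le_add_right (Nat.div_le_div_right h1) 1⟩
  have hT1' : (B.filter (fun a => a % q = r')).image (fun b => M - b / q) ⊆ Icc 1 M := by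
    intro t ht
    obtain ⟨b, hb, rfl⟩ := mem_image.mp ht
    rw [mem_filter] at hb
    have h1 := hbq b hb.1
    rw [mem_Icc]
    generalize b / q = z at h1 ⊢
    constructor
    · omega
    · omega
  have hT2 : (M : ℝ) / l ^ (K + 8) ≤
      ((A.filter (fun a => a % q = r)).image (fun a => a / q + 1)).card := by
    rw [card_image_of_injOn]
    · exact hMd.trans hAr
    · intro a ha b hb hab
      have h1 := (mem_filter.mp (mem_coe.mp ha)).2
      have h2 := (mem_filter.mp (mem_coe.mp hb)).2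
      simp only at hab
      have h3 : a / q = b / q := by omega
      rw [← Nat.div_add_mod a q, ← Nat.div_add_mod b q, h1, h2, h3]
  have hT2' : (M : ℝ) / l ^ (K + 8) ≤
      ((B.filter (fun a => a % q = r')).image (fun b => M - b / q)).card := by
    rw [card_image_of_injOn]
    · exact hMd.trans hBr
    · intro a ha b hb hab
      have h1 := mem_filter.mp (mem_coe.mp ha)
      have h2 := mem_filter.mp (mem_coe.mp hb)
      have h4 := hbq a h1.1
      have h5 := hbq b h2.1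
      simp only at hab
      have h3 : a / q = b / q := by omega
      rw [← Nat.div_add_mod a q, ← Nat.div_add_mod b q, h1.2, h2.2, h3]
  set m : ℤ := α * r + β * r' with hm
  set m' : ℤ := m + q * (β * (M : ℤ) - α) with hm'
  -- the normalised colours
  choose nz hnz using nz_exists
  set KS : Finset (ℕ × ℤ) := (UG (l / 10) Λ m).image nz with hKS
  have hKc : ∀ k ∈ KS, (1 ≤ k.1 ∧ IsCoprime (k.1 : ℤ) k.2) ∧ |((k.1 : ℤ) : ℝ)| ≤ Real.exp W ∧
      |(k.2 : ℝ)| ≤ Real.exp W := by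
    intro k hk
    obtain ⟨k', hk', rfl⟩ := mem_image.mp hk
    have hk'Λ : k' ∈ Λ := (mem_filter.mp hk').1
    obtain ⟨g1, g2, g3⟩ := hΛ k' hk'Λ
    obtain ⟨a1, a2, t, ht, a3, a4⟩ := hnz k' g1
    have htR : (1 : ℝ) ≤ |(t : ℝ)| := by
      rw [← Int.cast_abs]
      exact_mod_cast ht
    refine ⟨⟨a1, a2⟩, ?_, ?_⟩
    · rw [a3] at g2
      push_cast at g2
      rw [abs_mul] at g2
      have := abs_nonneg (((nz k').1 : ℕ) : ℝ)
      rw [Int.cast_natCast]
      nlinarith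
    · rw [a4] at g3
      push_cast at g3
      rw [abs_mul] at g3
      have := abs_nonneg ((nz k').2 : ℝ)
      nlinarith
  have hKScard : (KS.card : ℝ) ≤ min c 1 * l := by
    refine le_trans (Nat.cast_le.mpr card_image_le) hU
  have hKSl : (KS.card : ℝ) ≤ l := by
    refine hKScard.trans ?_
    have : min c 1 ≤ 1 := min_le_right _ _
    nlinarith
  -- the excluded primes
  set B₀ : Finset ℕ := (α.natAbs.primeFactors ∪ β.natAbs.primeFactors) ∪
    (KS.biUnion (fun k => ((k.1 : ℤ).natAbs).primeFactors) ∪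
      (KS ×ˢ KS).biUnion (fun kl : (ℕ × ℤ) × (ℕ × ℤ) =>
        ((kl.1.1 : ℤ) * kl.2.2 - kl.2.1 * kl.1.2).natAbs.primeFactors)) with hB₀
  have hexp1 : Real.exp W ≤ 2 * Real.exp (2 * W) := by
    have h1 : Real.exp W ≤ Real.exp (2 * W) := Real.exp_le_exp.mpr (by linarith)
    have h2 := Real.exp_pos (2 * W)
    linarith
  have hB₀c : 2 * (B₀.card : ℝ) ≤ l ^ (K + 8 + 4) := by
    have h1 : (B₀.card : ℝ) ≤ (6 * W + 6 * W) + (KS.card * (6 * W) + (KS.card * KS.card) * (6 * W)) := by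
      rw [hB₀]
      refine (Nat.cast_le.mpr (card_union_le _ _)).trans ?_
      push_cast
      apply add_le_add
      · refine (Nat.cast_le.mpr (card_union_le _ _)).trans ?_
        push_cast
        exact add_le_add (omega_le α W hW1 (hαW.trans hexp1)) (omega_le β W hW1 (hβW.trans hexp1))
      · refine (Nat.cast_le.mpr (card_union_le _ _)).trans ?_
        push_cast
        apply add_le_add
        · refine (Nat.cast_le.mpr card_biUnion_le).trans ?_
          push_cast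
          rw [← nsmul_eq_mul]
          apply sum_le_card_nsmul
          intro k hk
          exact omega_le _ W hW1 ((hKc k hk).2.1.trans hexp1)
        · refine (Nat.cast_le.mpr card_biUnion_le).trans ?_
          push_cast
          have h2 : (KS.card : ℝ) * KS.card = ((KS ×ˢ KS).card : ℕ) := by
            rw [card_product]
            push_cast
            ring
          rw [h2, ← nsmul_eq_mul]
          apply sum_le_card_nsmul
          rintro ⟨k, k'⟩ hk
          rw [mem_product] at hk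
          obtain ⟨_, g1, g2⟩ := hKc k hk.1
          obtain ⟨_, g3, g4⟩ := hKc k' hk.2
          apply omega_le _ W hW1
          push_cast at g1 g3 ⊢
          have h3 : Real.exp (2 * W) = Real.exp W * Real.exp W := by
            rw [← Real.exp_add]
            congr 1
            ring
          rw [h3]
          have h4 : |(k.1 : ℝ) * (k'.2 : ℝ)| ≤ Real.exp W * Real.exp W := by
            rw [abs_mul]
            exact mul_le_mul g1 g4 (abs_nonneg _) (Real.exp_pos _).le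
          have h5 : |(k'.1 : ℝ) * (k.2 : ℝ)| ≤ Real.exp W * Real.exp W := by
            rw [abs_mul]
            exact mul_le_mul g3 g2 (abs_nonneg _) (Real.exp_pos _).le
          have h6 := abs_sub (a := (k.1 : ℝ) * (k'.2 : ℝ)) (b := (k'.1 : ℝ) * (k.2 : ℝ))
          linarith
    have h2 : 2 * (B₀.card : ℝ) ≤ 2 * ((6 * W + 6 * W) + (l * (6 * W) + (l * l) * (6 * W))) := by
      have h3 : (KS.card : ℝ) * (6 * W) ≤ l * (6 * W) :=
        mul_le_mul_of_nonneg_right hKSl (by linarith)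
      have h4 : ((KS.card : ℝ) * KS.card) * (6 * W) ≤ (l * l) * (6 * W) := by
        apply mul_le_mul_of_nonneg_right _ (by linarith)
        exact mul_le_mul hKSl hKSl (Nat.cast_nonneg _) hl0.le
      linarith
    refine h2.trans ?_
    have h5 : l ^ (K + 8 + 4) = W * l ^ 12 := by rw [hW, ← pow_add]
    rw [h5]
    have h6 : 2 * ((6 * W + 6 * W) + (l * (6 * W) + (l * l) * (6 * W))) =
        W * (24 + 12 * l + 12 * l ^ 2) := by ring
    rw [h6]
    apply mul_le_mul_of_nonneg_left _ (by linarith)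
    have h7 : l ^ 3 ≤ l ^ 12 := pow_le_pow_right₀ (by linarith) (by norm_num)
    have h8 : 24 + 12 * l + 12 * l ^ 2 ≤ l ^ 3 := by nlinarith
    linarith
  have hbigp : ∀ p : ℕ, p.Prime → l ^ (K + 8 + 4) < p → ¬ p ∣ q := by
    intro p hp hpl hd
    have h3 : l ≤ l ^ (K + 8 + 4) := by
      calc l = l ^ 1 := (pow_one _).symm
        _ ≤ _ := pow_le_pow_right₀ (by linarith) (by omega)
    have := hqd p hp hd
    linarith
  have hnd : ∀ p : ℕ, p.Prime → l ^ (K + 8 + 4) < p → p ∉ B₀ → ∀ k ∈ KS, ¬ p ∣ k.1 * q := by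
    intro p hp hpl hpB k hk hd
    rcases (hp.dvd_mul).mp hd with h | h
    · apply hpB
      rw [hB₀, mem_union, mem_union, mem_union]
      right
      left
      rw [mem_biUnion]
      refine ⟨k, hk, ?_⟩
      have h1 := (hKc k hk).1.1
      rw [Int.natAbs_natCast]
      exact Nat.mem_primeFactors.mpr ⟨hp, h, by omega⟩
    · exact hbigp p hp hpl h
  have hmult : ∀ p : ℕ, p.Prime → l ^ (K + 8 + 4) < p → p ∉ B₀ →
      ¬ (p : ℤ) ∣ α ∧ ¬ (p : ℤ) ∣ β := by
    intro p hp hpl hpB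
    constructor
    · intro h
      apply hpB
      rw [hB₀, mem_union, mem_union]
      left
      left
      exact Nat.mem_primeFactors.mpr ⟨hp, Int.natCast_dvd.mp h, Int.natAbs_ne_zero.mpr hα⟩
    · intro h
      apply hpB
      rw [hB₀, mem_union, mem_union]
      left
      right
      exact Nat.mem_primeFactors.mpr ⟨hp, Int.natCast_dvd.mp h, Int.natAbs_ne_zero.mpr hβ⟩
  obtain ⟨t, ht, t', ht', hk⟩ := hcov X ((le_max_left _ _).trans hNX) KS
    (by
      rw [Fintype.card_coe]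
      refine hKScard.trans ?_
      have : min c 1 ≤ c := min_le_left _ _
      nlinarith) B₀ hB₀c α β hmult (resf q m' KS)
    (by
      intro p hp hpl hpz hpB k k' hkl hd
      have h1 := resf_dvd q m' KS p k hp (hnd p hp hpl hpB k.1 k.2)
      have h2 := resf_dvd q m' KS p k' hp (hnd p hp hpl hpB k'.1 k'.2)
      have h3 : (p : ℤ) ∣ (k.1.1 : ℤ) * (((k'.1.1 : ℤ) * q) * resf q m' KS p k' +
            ((k'.1.1 : ℤ) * m' + k'.1.2)) -
          (k'.1.1 : ℤ) * (((k.1.1 : ℤ) * q) * resf q m' KS p k + ((k.1.1 : ℤ) * m' + k.1.2)) +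
          (k.1.1 : ℤ) * k'.1.1 * q * (resf q m' KS p k - resf q m' KS p k') :=
        dvd_add (dvd_sub (Dvd.dvd.mul_left h2 _) (Dvd.dvd.mul_left h1 _)) (Dvd.dvd.mul_left hd _)
      have h4 : (k.1.1 : ℤ) * (((k'.1.1 : ℤ) * q) * resf q m' KS p k' +
            ((k'.1.1 : ℤ) * m' + k'.1.2)) -
          (k'.1.1 : ℤ) * (((k.1.1 : ℤ) * q) * resf q m' KS p k + ((k.1.1 : ℤ) * m' + k.1.2)) +
          (k.1.1 : ℤ) * k'.1.1 * q * (resf q m' KS p k - resf q m' KS p k') =
          (k.1.1 : ℤ) * k'.1.2 - k'.1.1 * k.1.2 := by ring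
      rw [h4] at h3
      by_cases h0 : (k.1.1 : ℤ) * k'.1.2 - k'.1.1 * k.1.2 = 0
      · exact hkl (Subtype.ext (col_eq (hKc k.1 k.2).1 (hKc k'.1 k'.2).1 h0))
      · apply hpB
        rw [hB₀, mem_union, mem_union, mem_union]
        right
        right
        rw [mem_biUnion]
        refine ⟨(k.1, k'.1), mem_product.mpr ⟨k.2, k'.2⟩, ?_⟩
        exact Nat.mem_primeFactors.mpr ⟨hp, Int.natCast_dvd.mp h3, Int.natAbs_ne_zero.mpr h0⟩)
    M _ _ hMhalf hT1 hT1' hT2 hT2'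
  obtain ⟨a, ha, hat⟩ := mem_image.mp ht
  obtain ⟨b, hb, hbt⟩ := mem_image.mp ht'
  rw [mem_filter] at ha hb
  set d : ℤ := α * a + β * b with hd
  have hdm : d = m' + q * (α * (t : ℤ) - β * t') := by
    have h1 := Nat.div_add_mod a q
    have h2 := Nat.div_add_mod b q
    rw [ha.2] at h1
    rw [hb.2] at h2
    have h1' : (a : ℤ) = q * ((a / q : ℕ) : ℤ) + r := by exact_mod_cast h1.symm
    have h2' : (b : ℤ) = q * ((b / q : ℕ) : ℤ) + r' := by exact_mod_cast h2.symm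
    have h3 : (t : ℤ) = ((a / q : ℕ) : ℤ) + 1 := by exact_mod_cast hat.symm
    have h4 : (t' : ℤ) = (M : ℤ) - ((b / q : ℕ) : ℤ) := by
      have h5 := hbq b hb.1
      rw [← hbt, Nat.cast_sub (by omega)]
    rw [hd, hm', hm, h3, h4]
    linear_combination α * h1' + β * h2'
  refine ⟨a, ha.1, b, hb.1, ?_⟩
  intro k hkΛ
  obtain ⟨g1, g2, g3⟩ := hΛ k hkΛ
  by_cases h2 : k ∈ UG (l / 10) Λ m
  · obtain ⟨a1, a2, s, hs, a3, a4⟩ := hnz k g1
    have h2' : nz k ∈ KS := mem_image_of_mem _ h2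
    obtain ⟨p, hp, hpl, hpz, hpB, hpd⟩ := hk ⟨nz k, h2'⟩
    refine ⟨p, hp, hpz, ?_⟩
    have h3 := resf_dvd q m' KS p ⟨nz k, h2'⟩ hp (hnd p hp hpl hpB (nz k) h2')
    have h4 := dvd_add (Dvd.dvd.mul_left hpd (((nz k).1 : ℤ) * q)) h3
    have h5 : ((nz k).1 : ℤ) * q * (α * (t : ℤ) - β * t' - resf q m' KS p ⟨nz k, h2'⟩) +
        ((((nz k).1 : ℤ) * q) * resf q m' KS p ⟨nz k, h2'⟩ + (((nz k).1 : ℤ) * m' + (nz k).2)) =
        ((nz k).1 : ℤ) * d + (nz k).2 := by
      rw [hdm]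
      ring
    rw [h5] at h4
    have h6 : k.1 * d + k.2 = s * (((nz k).1 : ℤ) * d + (nz k).2) := by
      linear_combination d * a3 + a4
    rw [h6]
    exact Dvd.dvd.mul_left h4 _
  · have h3 : ∃ p : ℕ, p.Prime ∧ (p : ℝ) ≤ l / 10 ∧ (p : ℤ) ∣ k.1 * m + k.2 := by
      by_contra hcon
      push Not at hcon
      apply h2
      unfold UG
      rw [mem_filter]
      exact ⟨hkΛ, fun p hp hpy => hcon p hp hpy⟩
    obtain ⟨p, hp, hpy, hpd⟩ := h3
    refine ⟨p, hp, hpy.trans e5, ?_⟩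
    have h4 : (p : ℤ) ∣ (q : ℤ) := by exact_mod_cast hdq p hp hpy
    have h5 := dvd_add hpd (Dvd.dvd.mul_right h4 (k.1 * ((β * (M : ℤ) - α) + (α * (t : ℤ) - β * t'))))
    have h6 : k.1 * m + k.2 + q * (k.1 * ((β * (M : ℤ) - α) + (α * (t : ℤ) - β * t'))) =
        k.1 * d + k.2 := by
      rw [hdm, hm']
      ring
    rwa [h6] at h5

end Pool.Agent.U642.DU
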